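import Mathlib

/-!
# Polarized complex variations of Hodge structure and the Liouville property of the base

A base is given by a connected complex manifold `S` (for example the universal covering of a
complex manifold `B`) and a group `Γ` acting on it (for example the group of deck
transformations, so that `B = Γ \ S`).
-/

open scoped Manifold ContDiff Topology
open Laplacian ComplexConjugate

namespace Pool.Agent.H64.GW

section Base

variable (𝕄 : Type) [NormedAddCommGroup 𝕄] [NormedSpace ℂ 𝕄]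
  {S : Type} [TopologicalSpace S] [ChartedSpace 𝕄 S]

/-- `f` restricts to a holomorphic map from the open unit disc to the complex manifold `S`. -/
def IsDisc (f : ℂ → S) : Prop :=
  ∀ z ∈ Metric.ball (0 : ℂ) 1, MDifferentiableAt 𝓘(ℂ) 𝓘(ℂ, 𝕄) f z

/-- A smooth plurisubharmonic function: continuous, and smooth with nonnegative Laplacian along
every holomorphic disc. -/
structure IsPSH (v : S → ℝ) : Prop where
  continuous : Continuous v
  smooth : ∀ f : ℂ → S, IsDisc 𝕄 f → ContDiffOn ℝ ∞ (v ∘ f) (Metric.ball 0 1)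
  laplacian_nonneg : ∀ f : ℂ → S, IsDisc 𝕄 f → ∀ z ∈ Metric.ball (0 : ℂ) 1, 0 ≤ Δ (v ∘ f) z

/-- The Liouville property of the base `(S, Γ)`: every negative smooth plurisubharmonic function
on `S` which is multiplied by a constant under each element of `Γ` is constant. -/
def IsLiouville (S : Type) [TopologicalSpace S] [ChartedSpace 𝕄 S] (Γ : Type) [Group Γ]
    [MulAction Γ S] : Prop :=
  ∀ v : S → ℝ, IsPSH 𝕄 v → (∀ s, v s < 0) → (∀ γ : Γ, ∃ m : ℝ, ∀ s, v (γ • s) = m * v s) →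
    ∀ s t, v s = v t

end Base

/-- A polarized complex variation of Hodge structure over the base `(S, Γ)`: the flat bundle is
`S × E` with the action of `Γ` through `ρ`, the Hodge filtration is `F`, and `h` is the
polarization. -/
structure PolarizedVariation (𝕄 : Type) [NormedAddCommGroup 𝕄] [NormedSpace ℂ 𝕄]
    (S : Type) [TopologicalSpace S] [ChartedSpace 𝕄 S] (Γ : Type) [Group Γ] [MulAction Γ S]
    (E : Type) [NormedAddCommGroup E] [NormedSpace ℂ E] where
  /-- the Hodge filtration -/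
  F : ℤ → S → Submodule ℂ E
  antitone : ∀ s, Antitone fun p => F p s
  exists_eq_top : ∀ s, ∃ p, F p s = ⊤
  exists_eq_bot : ∀ s, ∃ p, F p s = ⊥
  /-- the filtration varies holomorphically -/
  holomorphic : ∀ s₀ : S, ∃ g : S → (E →L[ℂ] E), g s₀ = ContinuousLinearMap.id ℂ E ∧
    ∀ᶠ s in 𝓝 s₀, MDifferentiableAt 𝓘(ℂ, 𝕄) 𝓘(ℂ, E →L[ℂ] E) g s ∧
      ∀ p, F p s = (F p s₀).map (g s : E →ₗ[ℂ] E)
  /-- Griffiths transversality -/
  griffiths : ∀ (p : ℤ) (f : ℂ → S) (e : ℂ → E) (z₀ : ℂ),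
    (∀ᶠ z in 𝓝 z₀, MDifferentiableAt 𝓘(ℂ) 𝓘(ℂ, 𝕄) f z ∧ DifferentiableAt ℂ e z ∧
      e z ∈ F p (f z)) → deriv e z₀ ∈ F (p - 1) (f z₀)
  /-- the monodromy representation -/
  ρ : Γ →* (E ≃ₗ[ℂ] E)
  equivariant : ∀ (γ : Γ) (p : ℤ) (s : S), F p (γ • s) = (F p s).map (ρ γ : E →ₗ[ℂ] E)
  /-- the polarization -/
  h : E →L⋆[ℂ] E →L[ℂ] ℂ
  hermitian : ∀ u v, h u v = conj (h v u)
  invariant : ∀ (γ : Γ) (u v : E), h (ρ γ u) (ρ γ v) = h u v
  /-- the Hodge-Riemann relations: `(-1) ^ p h` is positive definite on the part of `F p`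
  orthogonal to `F (p + 1)`. -/
  hodge_riemann : ∀ (s : S) (p : ℤ), ∀ u ∈ F p s, (∀ v ∈ F (p + 1) s, h u v = 0) → u ≠ 0 →
    0 < (-1 : ℝ) ^ p * (h u u).re

end Pool.Agent.H64.GW
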