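import Pool.Agent.H64.GW.Lap

/-!
# Lorentzian Hermitian forms
-/

open ComplexConjugate

namespace Pool.Agent.H64.GW

variable {E : Type*} [NormedAddCommGroup E] [NormedSpace ℂ E]

/-- a Hermitian form is Lorentzian on `U`: positive on `l`, negative on the orthogonal complement -/
structure Lorentz (b : E →L⋆[ℂ] E →L[ℂ] ℂ) (U : Submodule ℂ E) (l : E) : Prop where
  herm : ∀ u v, b u v = conj (b v u)
  mem : l ∈ U
  pos : 0 < (b l l).re
  neg : ∀ u ∈ U, b l u = 0 → u ≠ 0 → (b u u).re < 0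

theorem re_comb {b : E →L⋆[ℂ] E →L[ℂ] ℂ} (herm : ∀ u v, b u v = conj (b v u)) {u w : E}
    (huw : b u w = 0) (α β : ℂ) :
    (b (α • u + β • w) (α • u + β • w)).re = ‖α‖ ^ 2 * (b u u).re + ‖β‖ ^ 2 * (b w w).re := by
  have hwu : b w u = 0 := by rw [herm, huw, map_zero]
  simp only [map_add, map_smul, map_smulₛₗ, ContinuousLinearMap.add_apply,
    ContinuousLinearMap.smul_apply, smul_eq_mul, huw, hwu, mul_zero, add_zero, zero_add]
  have h1 : α * (conj α * b u u) = ((‖α‖ ^ 2 : ℝ) : ℂ) * b u u := by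
    rw [← mul_assoc, Complex.mul_conj']
    push_cast
    rfl
  have h2 : β * (conj β * b w w) = ((‖β‖ ^ 2 : ℝ) : ℂ) * b w w := by
    rw [← mul_assoc, Complex.mul_conj']
    push_cast
    rfl
  rw [h1, h2, Complex.add_re, Complex.re_ofReal_mul, Complex.re_ofReal_mul]

theorem Lorentz.dep {b : E →L⋆[ℂ] E →L[ℂ] ℂ} {U : Submodule ℂ E} {l u w : E}
    (H : Lorentz b U l) (hu : u ∈ U) (hw : w ∈ U) (hu0 : u ≠ 0) (hub : 0 ≤ (b u u).re)
    (huw : b u w = 0) (hwb : 0 ≤ (b w w).re) : ∃ c : ℂ, w = c • u := by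
  have hlu : b l u ≠ 0 := by
    intro h
    exact absurd (H.neg u hu h hu0) (not_lt.2 hub)
  refine ⟨b l w / b l u, ?_⟩
  by_contra hne
  set y := (b l w) • u + (-(b l u)) • w with hy
  have hyU : y ∈ U := U.add_mem (U.smul_mem _ hu) (U.smul_mem _ hw)
  have hly : b l y = 0 := by
    rw [hy, map_add, map_smul, map_smul, smul_eq_mul, smul_eq_mul]
    ring
  have hy0 : y ≠ 0 := by
    intro h0
    apply hne
    have h1 : (b l w) • u = (b l u) • w := by
      have := h0
      rw [hy, neg_smul, add_neg_eq_zero] at this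
      exact this
    rw [div_eq_inv_mul, mul_smul, h1, smul_smul, inv_mul_cancel₀ hlu, one_smul]
  have h2 := H.neg y hyU hly hy0
  rw [hy, re_comb H.herm huw] at h2
  have h3 : 0 ≤ ‖b l w‖ ^ 2 * (b u u).re + ‖-(b l u)‖ ^ 2 * (b w w).re := by positivity
  linarith

/-- the form `(u, v) ↦ conj (b (r, u)) b (r, v)` -/
noncomputable def gg (b : E →L⋆[ℂ] E →L[ℂ] ℂ) (r : E) : E →L⋆[ℂ] E →L[ℂ] ℂ :=
  (ContinuousLinearMap.toSpanSingleton ℂ (b r)).comp
    (((starL ℂ : ℂ ≃L⋆[ℂ] ℂ) : ℂ →L⋆[ℂ] ℂ).comp (b r))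

theorem gg_apply (b : E →L⋆[ℂ] E →L[ℂ] ℂ) (r u v : E) : gg b r u v = conj (b r u) * b r v := by
  simp [gg]

open Classical in
/-- the auxiliary form -/
noncomputable def aux (b : E →L⋆[ℂ] E →L[ℂ] ℂ) (r : E) : E →L⋆[ℂ] E →L[ℂ] ℂ :=
  if (b r r).re < 0 then b + ((-(b r r).re : ℝ) : ℂ)⁻¹ • gg b r else gg b r

theorem aux_herm {b : E →L⋆[ℂ] E →L[ℂ] ℂ} (herm : ∀ u v, b u v = conj (b v u)) (r u v : E) :
    aux b r u v = conj (aux b r v u) := by
  unfold aux
  split_ifs
  · simp only [ContinuousLinearMap.add_apply, ContinuousLinearMap.smul_apply, gg_apply,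
      smul_eq_mul, map_add, map_mul, Complex.conj_conj, map_inv₀, Complex.conj_ofReal, ← herm]
    ring
  · simp only [gg_apply, map_mul, Complex.conj_conj]
    ring

theorem self_real {b : E →L⋆[ℂ] E →L[ℂ] ℂ} (herm : ∀ u v, b u v = conj (b v u)) (r : E) :
    b r r = ((b r r).re : ℂ) := by
  have := herm r r
  exact (Complex.conj_eq_iff_real.1 this.symm).elim fun a ha => by rw [ha]; simp

theorem aux_re (b : E →L⋆[ℂ] E →L[ℂ] ℂ) (r u : E) :
    (aux b r u u).re = if (b r r).re < 0 then (b u u).re + (-(b r r).re)⁻¹ * ‖b r u‖ ^ 2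
      else ‖b r u‖ ^ 2 := by
  have h1 : conj (b r u) * b r u = ((‖b r u‖ ^ 2 : ℝ) : ℂ) := by
    rw [Complex.conj_mul']
    push_cast
    rfl
  unfold aux
  split_ifs
  · simp only [ContinuousLinearMap.add_apply, ContinuousLinearMap.smul_apply, gg_apply,
      smul_eq_mul, h1]
    rw [Complex.add_re, ← Complex.ofReal_inv, Complex.re_ofReal_mul, Complex.ofReal_re]
  · rw [gg_apply, h1, Complex.ofReal_re]

variable {b : E →L⋆[ℂ] E →L[ℂ] ℂ} {U : Submodule ℂ E} {l r : E}

theorem Lorentz.pair_ne (H : Lorentz b U l) (hr : r ∈ U) (hr0 : r ≠ 0) (hc : 0 ≤ (b r r).re) :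
    b r l ≠ 0 := by
  intro h
  have h1 : b l r = 0 := by rw [H.herm, h, map_zero]
  exact absurd (H.neg r hr h1 hr0) (not_lt.2 hc)

theorem Lorentz.aux_pos (H : Lorentz b U l) (hr : r ∈ U) (hr0 : r ≠ 0) :
    0 < (aux b r l l).re := by
  rw [aux_re]
  split_ifs with h
  · have h1 := H.pos
    have h2 : 0 < -(b r r).re := by linarith
    positivity
  · have := H.pair_ne hr hr0 (not_lt.1 h)
    positivity

/-- the key inequality and its equality case -/
theorem Lorentz.key (H : Lorentz b U l) (hr : r ∈ U) (hr0 : r ≠ 0) {w : E} (hw : w ∈ U)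
    (hlw : aux b r l w = 0) :
    0 ≤ (b l l).re * (aux b r w w).re - (b w w).re * (aux b r l l).re ∧
    ((b l l).re * (aux b r w w).re - (b w w).re * (aux b r l l).re = 0 → b r l ≠ 0 →
      ∃ c : ℂ, w = c • r) := by
  have hN := H.pos
  have hrr := self_real H.herm r
  by_cases hc : (b r r).re < 0
  · -- negative case
    set c := (b r r).re with hcdef
    have hcC : (c : ℂ) ≠ 0 := by exact_mod_cast hc.ne
    set w' := w - (b r w / c) • r with hw'
    set l' := l - (b r l / c) • r with hl'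
    have hw'U : w' ∈ U := U.sub_mem hw (U.smul_mem _ hr)
    have hl'U : l' ∈ U := U.sub_mem H.mem (U.smul_mem _ hr)
    have hgen : ∀ u v : E, b (u - (b r u / c) • r) (v - (b r v / c) • r) =
        b u v - conj (b r u) * b r v / c := by
      intro u v
      have hur : b u r = conj (b r u) := H.herm u r
      simp only [map_sub, map_smul, map_smulₛₗ, ContinuousLinearMap.sub_apply,
        ContinuousLinearMap.smul_apply, smul_eq_mul, hur, map_div₀, Complex.conj_ofReal]
      rw [hrr]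
      field_simp
      ring
    have haux : ∀ u v : E, aux b r u v = b u v - conj (b r u) * b r v / c := by
      intro u v
      unfold aux
      rw [if_pos (by rw [← hcdef]; exact hc)]
      simp only [ContinuousLinearMap.add_apply, ContinuousLinearMap.smul_apply, gg_apply,
        smul_eq_mul, ← hcdef]
      push_cast
      field_simp
      ring
    have h1 : b l' w' = 0 := by rw [hl', hw', hgen, ← haux, hlw]
    have h2 : 0 < (b l' l').re := by
      rw [hl', hgen, ← haux]
      exact H.aux_pos hr hr0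
    have hl'0 : l' ≠ 0 := by
      intro h0
      rw [h0] at h2
      simp at h2
    have h3 : 0 ≤ (b w' w').re → w' = 0 := by
      intro h4
      obtain ⟨a, ha⟩ := H.dep hl'U hw'U hl'0 h2.le h1 h4
      rw [ha, map_smul, smul_eq_mul] at h1
      have h5 : b l' l' ≠ 0 := by
        intro h6
        rw [h6] at h2
        simp at h2
      rcases mul_eq_zero.1 h1 with h6 | h6
      · rw [ha, h6, zero_smul]
      · exact absurd h6 h5
    have h4 : (b w' w').re ≤ 0 := by
      by_contra h5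
      have h6 := h3 (not_le.1 h5).le
      rw [h6] at h5
      simp at h5
    have h5 : (b w' w').re = (b w w).re + (-c)⁻¹ * ‖b r w‖ ^ 2 := by
      rw [hw', hgen, ← haux, aux_re, if_pos (by rw [← hcdef]; exact hc)]
    have h6 : 0 < (-c)⁻¹ := inv_pos.2 (by linarith)
    rw [aux_re, aux_re, if_pos (by rw [← hcdef]; exact hc), if_pos (by rw [← hcdef]; exact hc),
      ← hcdef]
    have h7 : (b l l).re * ((b w w).re + (-c)⁻¹ * ‖b r w‖ ^ 2)
        - (b w w).re * ((b l l).re + (-c)⁻¹ * ‖b r l‖ ^ 2) =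
        (-c)⁻¹ * ((b l l).re * ‖b r w‖ ^ 2 + (-(b w w).re) * ‖b r l‖ ^ 2) := by ring
    rw [h7]
    have h8 : 0 ≤ -(b w w).re := by
      have : 0 ≤ (-c)⁻¹ * ‖b r w‖ ^ 2 := by positivity
      linarith
    refine ⟨by positivity, ?_⟩
    intro h9 h10
    have h11 : (b l l).re * ‖b r w‖ ^ 2 + (-(b w w).re) * ‖b r l‖ ^ 2 = 0 :=
      (mul_eq_zero.1 h9).resolve_left h6.ne'
    have h12 : 0 ≤ (b l l).re * ‖b r w‖ ^ 2 := by positivity
    have h13 : 0 ≤ (-(b w w).re) * ‖b r l‖ ^ 2 := by positivity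
    have h14 : (b l l).re * ‖b r w‖ ^ 2 = 0 := by linarith
    have h15 : (-(b w w).re) * ‖b r l‖ ^ 2 = 0 := by linarith
    have h16 : ‖b r w‖ ^ 2 = 0 := (mul_eq_zero.1 h14).resolve_left hN.ne'
    have h17 : -(b w w).re = 0 :=
      (mul_eq_zero.1 h15).resolve_right (pow_ne_zero 2 (norm_ne_zero_iff.2 h10))
    have h18 : w' = 0 := by
      apply h3
      rw [h5, h16]
      linarith
    exact ⟨b r w / c, sub_eq_zero.1 h18⟩
  · have hc' := not_lt.1 hc
    have hg := H.pair_ne hr hr0 hc'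
    have haux : ∀ u v : E, aux b r u v = conj (b r u) * b r v := by
      intro u v
      unfold aux
      rw [if_neg hc, gg_apply]
    have hrw : b r w = 0 := by
      rw [haux] at hlw
      rcases mul_eq_zero.1 hlw with h | h
      · exact absurd ((map_eq_zero _).1 h) hg
      · exact h
    have h3 : 0 ≤ (b w w).re → ∃ a : ℂ, w = a • r := fun h4 =>
      H.dep hr hw hr0 hc' hrw h4
    have h4 : (b w w).re ≤ 0 := by
      by_contra h5
      obtain ⟨a, ha⟩ := h3 (not_le.1 h5).le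
      have h6 : b w w = 0 := by
        nth_rewrite 1 [ha]
        rw [map_smulₛₗ, ContinuousLinearMap.smul_apply, hrw, smul_zero]
      rw [h6] at h5
      simp at h5
    rw [aux_re, aux_re, if_neg hc, if_neg hc, hrw]
    have h5 : (b l l).re * ‖(0 : ℂ)‖ ^ 2 - (b w w).re * ‖b r l‖ ^ 2 =
        (-(b w w).re) * ‖b r l‖ ^ 2 := by
      rw [norm_zero]
      ring
    rw [h5]
    have h6 : 0 ≤ -(b w w).re := by linarith
    refine ⟨by positivity, ?_⟩
    intro h9 _
    have h17 : -(b w w).re = 0 :=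
      (mul_eq_zero.1 h9).resolve_right (pow_ne_zero 2 (norm_ne_zero_iff.2 hg))
    exact h3 (by linarith)

end Pool.Agent.H64.GW
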