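import Pool.Agent.H64.GW.Defs
import Pool.Agent.H64.GW.Lor

/-!
# Flat sections of a polarized variation: identity theorem
-/

open scoped Manifold ContDiff Topology
open Laplacian ComplexConjugate Filter

namespace Pool.Agent.H64.GW

variable {𝕄 : Type} [NormedAddCommGroup 𝕄] [NormedSpace ℂ 𝕄]
  {S : Type} [TopologicalSpace S] [ChartedSpace 𝕄 S]
  {Γ : Type} [Group Γ] [MulAction Γ S]
  {E : Type} [NormedAddCommGroup E] [NormedSpace ℂ E]

namespace PolarizedVariation

variable (X : PolarizedVariation 𝕄 S Γ E)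

theorem exists_local [CompleteSpace E] (s₀ : S) :
    ∃ g : S → (E →L[ℂ] E), g s₀ = ContinuousLinearMap.id ℂ E ∧
    ∀ᶠ s in 𝓝 s₀, MDifferentiableAt 𝓘(ℂ, 𝕄) 𝓘(ℂ, E →L[ℂ] E) g s ∧ IsUnit (g s) ∧
      ∀ p, X.F p s = (X.F p s₀).map (g s : E →ₗ[ℂ] E) := by
  obtain ⟨g, hg0, hg⟩ := X.holomorphic s₀
  refine ⟨g, hg0, ?_⟩
  have hc : ContinuousAt g s₀ := hg.self_of_nhds.1.continuousAt
  have h1 : IsUnit (g s₀) := by rw [hg0]; exact isUnit_one
  have h2 : ∀ᶠ s in 𝓝 s₀, IsUnit (g s) := hc.eventually (Units.isOpen.eventually_mem h1)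
  filter_upwards [hg, h2] with s h3 h4
  exact ⟨h3.1, h4, h3.2⟩

theorem isUnit_injective {T : E →L[ℂ] E} (h : IsUnit T) : Function.Injective T := by
  obtain ⟨u, rfl⟩ := h
  intro x y hxy
  have := congrArg ((u⁻¹ : (E →L[ℂ] E)ˣ) : E →L[ℂ] E) hxy
  have h2 : ((u⁻¹ : (E →L[ℂ] E)ˣ) : E →L[ℂ] E) * (u : E →L[ℂ] E) = 1 := u.inv_mul
  have h3 := fun z => congrArg (fun T : E →L[ℂ] E => T z) h2
  simp only [ContinuousLinearMap.mul_apply, ContinuousLinearMap.one_apply] at h3
  rw [h3, h3] at this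
  exact this

theorem finrank_const [CompleteSpace E] [PreconnectedSpace S] (p : ℤ) (s t : S) :
    Module.finrank ℂ (X.F p s) = Module.finrank ℂ (X.F p t) := by
  have : IsLocallyConstant (fun s => Module.finrank ℂ (X.F p s)) := by
    rw [IsLocallyConstant.iff_eventually_eq]
    intro s₀
    obtain ⟨g, hg0, hg⟩ := X.exists_local s₀
    filter_upwards [hg] with s hs
    rw [hs.2.2 p]
    exact ((Submodule.equivMapOfInjective (g s : E →ₗ[ℂ] E) (isUnit_injective hs.2.1)
      (X.F p s₀)).finrank_eq).symm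
  exact this.apply_eq_of_preconnectedSpace s t

/-- a map given by a complex line in a chart -/
theorem mdifferentiableAt_line [IsManifold 𝓘(ℂ, 𝕄) 1 S] (s₀ : S) (a v : 𝕄) (ζ : ℂ)
    (hζ : a + ζ • v ∈ (chartAt 𝕄 s₀).target) :
    MDifferentiableAt 𝓘(ℂ) 𝓘(ℂ, 𝕄) (fun ζ : ℂ => (chartAt 𝕄 s₀).symm (a + ζ • v)) ζ := by
  have h1 : MDifferentiableAt 𝓘(ℂ, 𝕄) 𝓘(ℂ, 𝕄) (chartAt 𝕄 s₀).symm (a + ζ • v) :=
    (mdifferentiable_chart (I := 𝓘(ℂ, 𝕄)) s₀).mdifferentiableAt_symm hζ
  have h2 : MDifferentiableAt 𝓘(ℂ) 𝓘(ℂ, 𝕄) (fun ζ : ℂ => a + ζ • v) ζ := by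
    rw [mdifferentiableAt_iff_differentiableAt]
    fun_prop
  exact h1.comp ζ h2

/-- identity theorem: a vector lying in `F p` over a nonempty open set lies in `F p` everywhere -/
theorem mem_of_eventually [FiniteDimensional ℂ E] [PreconnectedSpace S] [IsManifold 𝓘(ℂ, 𝕄) 1 S]
    (p : ℤ) (v : E) {s₁ : S} (h : ∀ᶠ s in 𝓝 s₁, v ∈ X.F p s) (s : S) : v ∈ X.F p s := by
  have : CompleteSpace E := FiniteDimensional.complete ℂ E
  set Z : Set S := {s | ∀ᶠ t in 𝓝 s, v ∈ X.F p t} with hZ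
  have hopen : IsOpen Z := isOpen_setOf_eventually_nhds
  have hclosed : IsClosed Z := by
    rw [← closure_subset_iff_isClosed]
    intro s₀ hs₀
    obtain ⟨g, hg0, hg⟩ := X.exists_local s₀
    set φ := chartAt 𝕄 s₀ with hφ
    have hsrc : s₀ ∈ φ.source := mem_chart_source 𝕄 s₀
    have htgt : φ s₀ ∈ φ.target := φ.map_source hsrc
    have hcont : Tendsto φ.symm (𝓝 (φ s₀)) (𝓝 s₀) := by
      have := φ.continuousAt_symm htgt
      rwa [ContinuousAt, φ.left_inv hsrc] at this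
    have h1 : ∀ᶠ x in 𝓝 (φ s₀), x ∈ φ.target ∧
        (MDifferentiableAt 𝓘(ℂ, 𝕄) 𝓘(ℂ, E →L[ℂ] E) g (φ.symm x) ∧ IsUnit (g (φ.symm x)) ∧
      ∀ p, X.F p (φ.symm x) = (X.F p s₀).map (g (φ.symm x) : E →ₗ[ℂ] E)) :=
      (φ.open_target.eventually_mem htgt).and (hcont.eventually hg)
    obtain ⟨ε, hε, hball⟩ := Metric.eventually_nhds_iff_ball.1 h1
    -- a point of `Z` in the ball
    have h2 : φ.source ∩ φ ⁻¹' (Metric.ball (φ s₀) ε) ∈ 𝓝 s₀ :=
      Filter.inter_mem (φ.open_source.mem_nhds hsrc)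
        ((φ.continuousAt hsrc).preimage_mem_nhds (Metric.ball_mem_nhds _ hε))
    obtain ⟨s₂, ⟨hs₂, hs₂'⟩, hs₂Z⟩ := mem_closure_iff_nhds.1 hs₀ _ h2
    -- the claim on the ball
    have key : ∀ x ∈ Metric.ball (φ s₀) ε, v ∈ X.F p (φ.symm x) := by
      intro x hx
      set a := φ s₂ with ha
      set Ω : Set ℂ := {ζ | a + ζ • (x - a) ∈ Metric.ball (φ s₀) ε} with hΩ
      have hΩo : IsOpen Ω := Metric.isOpen_ball.preimage (by fun_prop)
      have hΩc : IsPreconnected Ω := by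
        have : Convex ℝ Ω := by
          intro ζ hζ η hη α β hα hβ hαβ
          have h5 : a + (α • ζ + β • η) • (x - a) =
              α • (a + ζ • (x - a)) + β • (a + η • (x - a)) := by
            have e1 : (α • ζ + β • η) • (x - a) = α • (ζ • (x - a)) + β • (η • (x - a)) := by
              rw [add_smul, smul_assoc, smul_assoc]
            have e2 : a = α • a + β • a := by rw [← add_smul, hαβ, one_smul]
            rw [e1, smul_add, smul_add]
            nth_rewrite 1 [e2]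
            abel
          show a + (α • ζ + β • η) • (x - a) ∈ Metric.ball (φ s₀) ε
          rw [h5]
          exact (convex_ball (φ s₀) ε) hζ hη hα hβ hαβ
        exact this.isPreconnected
      set f : ℂ → S := fun ζ => φ.symm (a + ζ • (x - a)) with hf
      have hfd : ∀ ζ ∈ Ω, MDifferentiableAt 𝓘(ℂ) 𝓘(ℂ, 𝕄) f ζ := fun ζ hζ =>
        mdifferentiableAt_line s₀ a (x - a) ζ (hball _ hζ).1
      set G : ℂ → (E →L[ℂ] E) := fun ζ => Ring.inverse (g (f ζ)) with hG
      have hGd : ∀ ζ ∈ Ω, DifferentiableAt ℂ G ζ := by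
        intro ζ hζ
        have h6 : MDifferentiableAt 𝓘(ℂ) 𝓘(ℂ, E →L[ℂ] E) (g ∘ f) ζ :=
          (hball _ hζ).2.1.comp ζ (hfd ζ hζ)
        have h7 : DifferentiableAt ℂ (g ∘ f) ζ := mdifferentiableAt_iff_differentiableAt.1 h6
        exact h7.inverse (hball _ hζ).2.2.1
      have hmem : ∀ ζ ∈ Ω, (v ∈ X.F p (f ζ) ↔ G ζ v ∈ X.F p s₀) := by
        intro ζ hζ
        have hu := (hball _ hζ).2.2.1
        rw [(hball _ hζ).2.2.2 p]
        have h8 : ∀ y, g (f ζ) (G ζ y) = y := by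
          intro y
          have := Ring.mul_inverse_cancel _ hu
          exact congrArg (fun T : E →L[ℂ] E => T y) this
        constructor
        · rintro ⟨y, hy, hyv⟩
          have : G ζ v = y := by
            apply isUnit_injective hu
            rw [h8]
            exact hyv.symm
          rw [this]
          exact hy
        · intro h9
          exact ⟨G ζ v, h9, h8 v⟩
      have h0Ω : (0 : ℂ) ∈ Ω := by
        show a + (0 : ℂ) • (x - a) ∈ Metric.ball (φ s₀) ε
        rw [zero_smul, add_zero]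
        exact hs₂'
      have h1Ω : (1 : ℂ) ∈ Ω := by
        show a + (1 : ℂ) • (x - a) ∈ Metric.ball (φ s₀) ε
        rw [one_smul, add_sub_cancel]
        exact hx
      have hf0 : f 0 = s₂ := by
        show φ.symm (a + (0 : ℂ) • (x - a)) = s₂
        rw [zero_smul, add_zero, ha, φ.left_inv hs₂]
      have hf1 : f 1 = φ.symm x := by
        show φ.symm (a + (1 : ℂ) • (x - a)) = φ.symm x
        rw [one_smul, add_sub_cancel]
      have hev : ∀ᶠ ζ in 𝓝 (0 : ℂ), G ζ v ∈ X.F p s₀ := by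
        have h10 : Tendsto f (𝓝 0) (𝓝 s₂) := by
          have := (hfd 0 h0Ω).continuousAt
          rwa [ContinuousAt, hf0] at this
        filter_upwards [h10.eventually hs₂Z, hΩo.eventually_mem h0Ω] with ζ h11 h12
        exact (hmem ζ h12).1 h11
      -- apply functionals vanishing on `F p s₀`
      rw [← hf1, hmem 1 h1Ω]
      by_contra hne
      obtain ⟨ξ, hξ1, hξ2⟩ := Submodule.exists_le_ker_of_notMem hne
      set ξ' : E →L[ℂ] ℂ := LinearMap.toContinuousLinearMap ξ with hξ'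
      have hξd : DifferentiableOn ℂ (fun ζ => ξ' (G ζ v)) Ω := by
        intro ζ hζ
        have h13 : DifferentiableAt ℂ (fun ζ => G ζ v) ζ :=
          (hGd ζ hζ).clm_apply (differentiableAt_const v)
        exact (ξ'.differentiableAt.comp ζ h13).differentiableWithinAt
      have h14 : (fun ζ => ξ' (G ζ v)) =ᶠ[𝓝 0] 0 := by
        filter_upwards [hev] with ζ hζ
        exact hξ2 hζ
      have h15 := (hξd.analyticOnNhd hΩo).eqOn_zero_of_preconnected_of_eventuallyEq_zero hΩc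
        h0Ω h14 h1Ω
      exact hξ1 h15
    show ∀ᶠ t in 𝓝 s₀, v ∈ X.F p t
    filter_upwards [h2] with t ht
    have := key (φ t) ht.2
    rwa [φ.left_inv ht.1] at this
  have huniv : Z = Set.univ := by
    have := isClopen_iff.1 ⟨hclosed, hopen⟩
    rcases this with h3 | h3
    · exact absurd (show s₁ ∈ Z from h) (by rw [h3]; exact Set.notMem_empty _)
    · exact h3
  have : s ∈ Z := by rw [huniv]; exact Set.mem_univ s
  exact this.self_of_nhds

end PolarizedVariation

end Pool.Agent.H64.GW
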