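import Pool.Agent.H64.GW.Core

/-!
# Rigidity of the top step of a polarized variation over a Liouville base
-/

open scoped Manifold ContDiff Topology
open Laplacian ComplexConjugate Filter

namespace Pool.Agent.H64.GW

variable {𝕄 : Type} [NormedAddCommGroup 𝕄] [NormedSpace ℂ 𝕄]
  {S : Type} [TopologicalSpace S] [ChartedSpace 𝕄 S]
  {Γ : Type} [Group Γ] [MulAction Γ S]
  {E : Type} [NormedAddCommGroup E] [NormedSpace ℂ E]

/-- the ratio of two Hermitian forms -/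
noncomputable def ratio (b₁ b₂ : E →L⋆[ℂ] E →L[ℂ] ℂ) (l : E) : ℝ :=
  -((b₁ l l).re / (b₂ l l).re)

theorem ratio_smul (b₁ b₂ : E →L⋆[ℂ] E →L[ℂ] ℂ) (l : E) {c : ℂ} (hc : c ≠ 0) :
    ratio b₁ b₂ (c • l) = ratio b₁ b₂ l := by
  have h : ∀ b : E →L⋆[ℂ] E →L[ℂ] ℂ, (b (c • l) (c • l)).re = ‖c‖ ^ 2 * (b l l).re := by
    intro b
    simp only [map_smul, map_smulₛₗ, ContinuousLinearMap.smul_apply, smul_eq_mul]
    have : c * (conj c * b l l) = ((‖c‖ ^ 2 : ℝ) : ℂ) * b l l := by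
      rw [← mul_assoc, Complex.mul_conj']
      push_cast
      rfl
    rw [this, Complex.re_ofReal_mul]
  unfold ratio
  rw [h, h, mul_div_mul_left]
  exact pow_ne_zero 2 (norm_ne_zero_iff.2 hc)

namespace PolarizedVariation

variable (X : PolarizedVariation 𝕄 S Γ E)

/-- the polarization with the sign that makes it positive on `F p₀ / F (p₀ + 1)` -/
noncomputable def sgn (p₀ : ℤ) : E →L⋆[ℂ] E →L[ℂ] ℂ := (((-1 : ℝ) ^ p₀ : ℝ) : ℂ) • X.h

theorem sgn_apply (p₀ : ℤ) (u v : E) : X.sgn p₀ u v = (((-1 : ℝ) ^ p₀ : ℝ) : ℂ) * X.h u v := rfl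

theorem sgn_herm (p₀ : ℤ) (u v : E) : X.sgn p₀ u v = conj (X.sgn p₀ v u) := by
  rw [sgn_apply, sgn_apply, map_mul, Complex.conj_ofReal, ← X.hermitian]

theorem sgn_re (p₀ : ℤ) (u : E) : (X.sgn p₀ u u).re = (-1 : ℝ) ^ p₀ * (X.h u u).re := by
  rw [sgn_apply, Complex.re_ofReal_mul]

theorem sgn_ne (p₀ : ℤ) : (((-1 : ℝ) ^ p₀ : ℝ) : ℂ) ≠ 0 := by
  have : ((-1 : ℝ) ^ p₀) ≠ 0 := zpow_ne_zero _ (by norm_num)
  exact_mod_cast this

theorem sgn_invariant (p₀ : ℤ) (γ : Γ) (u v : E) :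
    X.sgn p₀ (X.ρ γ u) (X.ρ γ v) = X.sgn p₀ u v := by
  rw [sgn_apply, sgn_apply, X.invariant]

variable {p₀ : ℤ} (hbot : ∀ s, X.F (p₀ + 1) s = ⊥) (hline : ∀ s, Module.finrank ℂ (X.F p₀ s) = 1)

include hbot hline

theorem eq_smul {s : S} {l u : E} (hl : l ∈ X.F p₀ s) (hl0 : l ≠ 0) (hu : u ∈ X.F p₀ s) :
    ∃ c : ℂ, u = c • l := by
  have h1 := (finrank_eq_one_iff_of_nonzero' (⟨l, hl⟩ : X.F p₀ s)
    (by intro h; exact hl0 (congrArg Subtype.val h))).1 (hline s) ⟨u, hu⟩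
  obtain ⟨c, hc⟩ := h1
  exact ⟨c, (congrArg Subtype.val hc).symm⟩

theorem lorentz {s : S} {l : E} (hl : l ∈ X.F p₀ s) (hl0 : l ≠ 0) :
    Lorentz (X.sgn p₀) (X.F (p₀ - 1) s) l where
  herm := X.sgn_herm p₀
  mem := X.antitone s (by omega) hl
  pos := by
    rw [sgn_re]
    apply X.hodge_riemann s p₀ l hl _ hl0
    intro v hv
    rw [hbot s, Submodule.mem_bot] at hv
    rw [hv, map_zero]
  neg := by
    intro u hu hlu hu0
    have h1 := X.hodge_riemann s (p₀ - 1) u hu (by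
      intro v hv
      rw [sub_add_cancel] at hv
      obtain ⟨c, rfl⟩ := X.eq_smul hbot hline hl hl0 hv
      have h2 : X.h l u = 0 := by
        rw [sgn_apply] at hlu
        exact (mul_eq_zero.1 hlu).resolve_left (sgn_ne p₀)
      rw [map_smul, X.hermitian u l, h2, map_zero, smul_zero]) hu0
    rw [sgn_re]
    have h3 : (-1 : ℝ) ^ p₀ = - (-1 : ℝ) ^ (p₀ - 1) := by
      rw [zpow_sub_one₀ (by norm_num)]
      norm_num
    rw [h3]
    linarith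

open Classical in
/-- a nonzero vector of the line `F p₀ s` -/
noncomputable def gen (s : S) : E :=
  if h : ∃ l ∈ X.F p₀ s, l ≠ 0 then h.choose else 0

theorem gen_spec (s : S) : gen X (p₀ := p₀) s ∈ X.F p₀ s ∧ gen X (p₀ := p₀) s ≠ 0 := by
  have h : ∃ l ∈ X.F p₀ s, l ≠ 0 := by
    have h1 : X.F p₀ s ≠ ⊥ := by
      intro h2
      have := hline s
      rw [h2, finrank_bot] at this
      omega
    obtain ⟨l, hl, hl0⟩ := Submodule.exists_mem_ne_zero_of_ne_bot h1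
    exact ⟨l, hl, hl0⟩
  unfold gen
  rw [dif_pos h]
  exact h.choose_spec

variable {r : E} (hr0 : r ≠ 0) (hr : ∀ s, r ∈ X.F (p₀ - 1) s)

omit hbot hline in
/-- the potential -/
noncomputable def pot (p₀ : ℤ) (r : E) (s : S) : ℝ :=
  ratio (X.sgn p₀) (aux (X.sgn p₀) r) (gen X (p₀ := p₀) s)

theorem pot_eq {s : S} {l : E} (hl : l ∈ X.F p₀ s) (hl0 : l ≠ 0) :
    X.pot p₀ r s = ratio (X.sgn p₀) (aux (X.sgn p₀) r) l := by
  obtain ⟨h1, h2⟩ := X.gen_spec hbot hline s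
  obtain ⟨c, hc⟩ := X.eq_smul hbot hline hl hl0 h1
  have hc0 : c ≠ 0 := by
    rintro rfl
    rw [zero_smul] at hc
    exact h2 hc
  unfold pot
  rw [hc, ratio_smul _ _ _ hc0]

include hr0 hr

theorem pot_neg (s : S) : X.pot p₀ r s < 0 := by
  obtain ⟨h1, h2⟩ := X.gen_spec hbot hline s
  have H := X.lorentz hbot hline h1 h2
  have h3 := H.aux_pos (hr s) hr0
  have h4 := H.pos
  unfold pot ratio
  have := div_pos h4 h3
  linarith

theorem pot_aut (hstab : ∀ γ : Γ, ∃ χ : ℂ, X.ρ γ r = χ • r) (γ : Γ) :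
    ∃ m : ℝ, ∀ s, X.pot p₀ r (γ • s) = m * X.pot p₀ r s := by
  obtain ⟨χ, hχ⟩ := hstab γ
  have hχ0 : χ ≠ 0 := by
    rintro rfl
    rw [zero_smul] at hχ
    exact hr0 ((X.ρ γ).map_eq_zero_iff.1 hχ)
  have hpair : ∀ u, X.sgn p₀ r (X.ρ γ u) = conj χ⁻¹ * X.sgn p₀ r u := by
    intro u
    have h1 := X.sgn_invariant p₀ γ r u
    rw [hχ, map_smulₛₗ, ContinuousLinearMap.smul_apply, smul_eq_mul] at h1
    rw [← h1, map_inv₀, ← mul_assoc, inv_mul_cancel₀ ((map_ne_zero _).2 hχ0), one_mul]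
  have hnorm : ∀ u, ‖X.sgn p₀ r (X.ρ γ u)‖ = ‖χ‖⁻¹ * ‖X.sgn p₀ r u‖ := by
    intro u
    rw [hpair, norm_mul, RCLike.norm_conj, norm_inv]
  have hself : (X.sgn p₀ r r).re = ‖χ‖ ^ 2 * (X.sgn p₀ r r).re := by
    have h1 := X.sgn_invariant p₀ γ r r
    rw [hχ, map_smul] at h1
    simp only [map_smulₛₗ, ContinuousLinearMap.smul_apply, smul_eq_mul] at h1
    rw [← mul_assoc, Complex.mul_conj'] at h1
    have h2 : ((‖χ‖ : ℂ) ^ 2) = ((‖χ‖ ^ 2 : ℝ) : ℂ) := by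
      push_cast
      rfl
    rw [h2] at h1
    rw [← Complex.re_ofReal_mul, h1]
  by_cases hc : (X.sgn p₀ r r).re < 0
  · have hχ1 : ‖χ‖ ^ 2 = 1 := by
      have := hself
      nlinarith [mul_left_cancel₀ hc.ne (show (X.sgn p₀ r r).re * ‖χ‖ ^ 2 =
        (X.sgn p₀ r r).re * 1 by linarith)]
    have hχ2 : ‖χ‖ = 1 := by
      have := norm_nonneg χ
      nlinarith
    refine ⟨1, fun s => ?_⟩
    obtain ⟨h1, h2⟩ := X.gen_spec hbot hline s
    have h3 : X.ρ γ (gen X (p₀ := p₀) s) ∈ X.F p₀ (γ • s) := by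
      rw [X.equivariant]
      exact Submodule.mem_map_of_mem h1
    have h4 : X.ρ γ (gen X (p₀ := p₀) s) ≠ 0 := by
      intro h
      exact h2 ((X.ρ γ).map_eq_zero_iff.1 h)
    rw [X.pot_eq hbot hline h3 h4, X.pot_eq hbot hline h1 h2, one_mul]
    unfold ratio
    rw [aux_re, aux_re, if_pos hc, if_pos hc, X.sgn_invariant, hnorm, hχ2]
    simp
  · refine ⟨‖χ‖ ^ 2, fun s => ?_⟩
    obtain ⟨h1, h2⟩ := X.gen_spec hbot hline s
    have h3 : X.ρ γ (gen X (p₀ := p₀) s) ∈ X.F p₀ (γ • s) := by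
      rw [X.equivariant]
      exact Submodule.mem_map_of_mem h1
    have h4 : X.ρ γ (gen X (p₀ := p₀) s) ≠ 0 := by
      intro h
      exact h2 ((X.ρ γ).map_eq_zero_iff.1 h)
    rw [X.pot_eq hbot hline h3 h4, X.pot_eq hbot hline h1 h2]
    unfold ratio
    have hn : ‖χ‖ ≠ 0 := norm_ne_zero_iff.2 hχ0
    have hg : ‖X.sgn p₀ r (gen X (p₀ := p₀) s)‖ ≠ 0 := norm_ne_zero_iff.2
      ((X.lorentz hbot hline h1 h2).pair_ne (hr s) hr0 (not_lt.1 hc))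
    rw [aux_re, aux_re, if_neg hc, if_neg hc, X.sgn_invariant, hnorm]
    field_simp

omit hr0 hr in
theorem pot_comp_eq {f : ℂ → S} {l : ℂ → E} {z₀ : ℂ}
    (hl : ∀ᶠ z in 𝓝 z₀, l z ∈ X.F p₀ (f z)) (hlc : ContinuousAt l z₀) (hl0 : l z₀ ≠ 0) :
    (X.pot p₀ r ∘ f) =ᶠ[𝓝 z₀]
      fun z => -(hq (X.sgn p₀) l z / hq (aux (X.sgn p₀) r) l z) := by
  filter_upwards [hl, hlc.eventually_ne hl0] with z h1 h2
  exact X.pot_eq hbot hline h1 h2

theorem pot_laplacian [CompleteSpace E] {f : ℂ → S} {l : ℂ → E} {z₀ : ℂ}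
    (hf : ∀ᶠ z in 𝓝 z₀, MDifferentiableAt 𝓘(ℂ) 𝓘(ℂ, 𝕄) f z ∧ DifferentiableAt ℂ l z ∧
      l z ∈ X.F p₀ (f z)) (hl0 : l z₀ ≠ 0) :
    0 ≤ Δ (X.pot p₀ r ∘ f) z₀ ∧ (Δ (X.pot p₀ r ∘ f) z₀ = 0 → X.sgn p₀ r (l z₀) ≠ 0 →
      ∃ a c : ℂ, deriv l z₀ = a • l z₀ + c • r) := by
  have h1 : ∀ᶠ z in 𝓝 z₀, l z ∈ X.F p₀ (f z) := hf.mono fun z hz => hz.2.2
  have h2 : ∀ᶠ z in 𝓝 z₀, DifferentiableAt ℂ l z := hf.mono fun z hz => hz.2.1
  have heq := X.pot_comp_eq hbot hline (r := r) h1 h2.self_of_nhds.continuousAt hl0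
  have H := X.lorentz hbot hline h1.self_of_nhds hl0
  have hpos := H.aux_pos (hr (f z₀)) hr0
  have hne : hq (aux (X.sgn p₀) r) l z₀ ≠ 0 := hpos.ne'
  obtain ⟨μ, hμ1, hμ2⟩ := laplacian_ratio (X.sgn_herm p₀) (aux_herm (X.sgn_herm p₀) r) h2 hne
  have hlap : Δ (X.pot p₀ r ∘ f) z₀ =
      Δ (fun z => -(hq (X.sgn p₀) l z / hq (aux (X.sgn p₀) r) l z)) z₀ :=
    (InnerProductSpace.laplacian_congr_nhds heq).eq_of_nhds
  rw [hlap, hμ2]
  set w := deriv l z₀ + μ • l z₀ with hw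
  have hwU : w ∈ X.F (p₀ - 1) (f z₀) :=
    Submodule.add_mem _ (X.griffiths p₀ f l z₀ hf) (Submodule.smul_mem _ _ H.mem)
  obtain ⟨k1, k2⟩ := H.key (hr (f z₀)) hr0 hwU hμ1
  have hD : 0 < hq (aux (X.sgn p₀) r) l z₀ ^ 2 := by
    have : 0 < hq (aux (X.sgn p₀) r) l z₀ := hpos
    positivity
  refine ⟨div_nonneg (mul_nonneg (by norm_num) k1) hD.le, ?_⟩
  intro h3 h4
  have h5 := (div_eq_zero_iff.1 h3).resolve_right hD.ne'
  have h6 := (mul_eq_zero.1 h5).resolve_left (by norm_num)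
  obtain ⟨c, hc⟩ := k2 h6 h4
  refine ⟨-μ, c, ?_⟩
  rw [← hc, hw, neg_smul]
  abel

omit hbot hline hr0 hr in
theorem exists_frame [CompleteSpace E] {f : ℂ → S} {z₀ : ℂ}
    (hf : ∀ᶠ z in 𝓝 z₀, MDifferentiableAt 𝓘(ℂ) 𝓘(ℂ, 𝕄) f z) {l₀ : E}
    (hl₀ : l₀ ∈ X.F p₀ (f z₀)) :
    ∃ l : ℂ → E, l z₀ = l₀ ∧ ∀ᶠ z in 𝓝 z₀, MDifferentiableAt 𝓘(ℂ) 𝓘(ℂ, 𝕄) f z ∧
      DifferentiableAt ℂ l z ∧ l z ∈ X.F p₀ (f z) := by
  obtain ⟨g, hg0, hg⟩ := X.exists_local (f z₀)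
  refine ⟨fun z => g (f z) l₀, by simp [hg0], ?_⟩
  have hc := hf.self_of_nhds.continuousAt
  filter_upwards [hf, hc.eventually hg] with z h1 h2
  refine ⟨h1, ?_, ?_⟩
  · have h6 : MDifferentiableAt 𝓘(ℂ) 𝓘(ℂ, E →L[ℂ] E) (g ∘ f) z := h2.1.comp z h1
    have h7 : DifferentiableAt ℂ (g ∘ f) z := mdifferentiableAt_iff_differentiableAt.1 h6
    exact h7.clm_apply (differentiableAt_const l₀)
  · rw [h2.2.2 p₀]
    exact Submodule.mem_map_of_mem hl₀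

theorem pot_continuous [CompleteSpace E] : Continuous (X.pot p₀ r) := by
  rw [continuous_iff_continuousAt]
  intro s₀
  obtain ⟨g, hg0, hg⟩ := X.exists_local s₀
  obtain ⟨h1, h2⟩ := X.gen_spec hbot hline s₀
  set l₀ := gen X (p₀ := p₀) s₀ with hl₀
  have hgc : ContinuousAt g s₀ := hg.self_of_nhds.1.continuousAt
  have hlc : ContinuousAt (fun s => g s l₀) s₀ := hgc.clm_apply continuousAt_const
  have heq : X.pot p₀ r =ᶠ[𝓝 s₀] fun s => ratio (X.sgn p₀) (aux (X.sgn p₀) r) (g s l₀) := by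
    filter_upwards [hg] with s hs
    apply X.pot_eq hbot hline
    · rw [hs.2.2 p₀]
      exact Submodule.mem_map_of_mem h1
    · intro h0
      apply h2
      apply isUnit_injective hs.2.1
      rw [h0, map_zero]
  refine ContinuousAt.congr ?_ heq.symm
  have H := X.lorentz hbot hline h1 h2
  have hpos := H.aux_pos (hr s₀) hr0
  have hform : ∀ b : E →L⋆[ℂ] E →L[ℂ] ℂ,
      ContinuousAt (fun s => (b (g s l₀) (g s l₀)).re) s₀ := by
    intro b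
    have h3 : Continuous (fun p : E × E => b p.1 p.2) := (bounded_herm b).continuous
    have h4 : ContinuousAt (fun s => ((g s l₀, g s l₀) : E × E)) s₀ := hlc.prodMk hlc
    exact Complex.continuous_re.continuousAt.comp (h3.continuousAt.comp h4)
  unfold ratio
  refine ((hform _).div (hform _) ?_).neg
  rw [hg0]
  exact hpos.ne'

theorem pot_psh [CompleteSpace E] : IsPSH 𝕄 (X.pot p₀ r) where
  continuous := X.pot_continuous hbot hline hr0 hr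
  smooth := by
    intro f hf z₀ hz₀
    have hf' : ∀ᶠ z in 𝓝 z₀, MDifferentiableAt 𝓘(ℂ) 𝓘(ℂ, 𝕄) f z := by
      filter_upwards [Metric.isOpen_ball.mem_nhds hz₀] with z hz
      exact hf z hz
    obtain ⟨h1, h2⟩ := X.gen_spec hbot hline (f z₀)
    obtain ⟨l, hl0, hl⟩ := X.exists_frame hf' h1
    have hl0' : l z₀ ≠ 0 := by rw [hl0]; exact h2
    have h3 : ∀ᶠ z in 𝓝 z₀, l z ∈ X.F p₀ (f z) := hl.mono fun z hz => hz.2.2
    have h4 : ∀ᶠ z in 𝓝 z₀, DifferentiableAt ℂ l z := hl.mono fun z hz => hz.2.1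
    have heq := X.pot_comp_eq hbot hline (r := r) h3 h4.self_of_nhds.continuousAt hl0'
    have hcd : ContDiffAt ℂ ∞ l z₀ := by
      obtain ⟨s, hs, hs2, hs3⟩ := eventually_nhds_iff.1 h4
      have : DifferentiableOn ℂ l s := fun z hz => (hs z hz).differentiableWithinAt
      exact (this.contDiffOn hs2).contDiffAt (hs2.mem_nhds hs3)
    have hcdR : ContDiffAt ℝ ∞ l z₀ := hcd.restrict_scalars ℝ
    have hform : ∀ b : E →L⋆[ℂ] E →L[ℂ] ℂ, ContDiffAt ℝ ∞ (hq b l) z₀ := by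
      intro b
      have h1 : ContDiffAt ℝ ∞ (fun z => b (l z) (l z)) z₀ :=
        (bounded_herm b).contDiff.contDiffAt.comp z₀ (hcdR.prodMk hcdR)
      exact Complex.reCLM.contDiff.contDiffAt.comp z₀ h1
    have H := X.lorentz hbot hline h3.self_of_nhds hl0'
    have hpos := H.aux_pos (hr (f z₀)) hr0
    have h5 : ContDiffAt ℝ ∞ (fun z => -(hq (X.sgn p₀) l z / hq (aux (X.sgn p₀) r) l z)) z₀ :=
      ((hform _).div (hform _) hpos.ne').neg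
    exact (h5.congr_of_eventuallyEq heq).contDiffWithinAt
  laplacian_nonneg := by
    intro f hf z₀ hz₀
    have hf' : ∀ᶠ z in 𝓝 z₀, MDifferentiableAt 𝓘(ℂ) 𝓘(ℂ, 𝕄) f z := by
      filter_upwards [Metric.isOpen_ball.mem_nhds hz₀] with z hz
      exact hf z hz
    obtain ⟨h1, h2⟩ := X.gen_spec hbot hline (f z₀)
    obtain ⟨l, hl0, hl⟩ := X.exists_frame hf' h1
    exact (X.pot_laplacian hbot hline hr0 hr hl (by rw [hl0]; exact h2)).1

/-- rigidity: over a Liouville base the derivative of the top step lies in the span of the top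
step and of the flat line -/
theorem rigidity [CompleteSpace E] (hL : IsLiouville 𝕄 S Γ)
    (hstab : ∀ γ : Γ, ∃ χ : ℂ, X.ρ γ r = χ • r) {f : ℂ → S} {l : ℂ → E} {z₀ : ℂ}
    (hf : ∀ᶠ z in 𝓝 z₀, MDifferentiableAt 𝓘(ℂ) 𝓘(ℂ, 𝕄) f z ∧ DifferentiableAt ℂ l z ∧
      l z ∈ X.F p₀ (f z)) (hl0 : l z₀ ≠ 0) (hrl : X.sgn p₀ r (l z₀) ≠ 0) :
    ∃ a c : ℂ, deriv l z₀ = a • l z₀ + c • r := by
  refine (X.pot_laplacian hbot hline hr0 hr hf hl0).2 ?_ hrl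
  have h1 := hL (X.pot p₀ r) (X.pot_psh hbot hline hr0 hr) (X.pot_neg hbot hline hr0 hr)
    (X.pot_aut hbot hline hr0 hr hstab)
  have h2 : X.pot p₀ r ∘ f = fun _ => X.pot p₀ r (f z₀) := by
    funext z
    exact h1 _ _
  rw [h2, InnerProductSpace.laplacian_const]
  rfl

end PolarizedVariation

end Pool.Agent.H64.GW
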