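import Pool.Agent.H64.GW.Model
import Pool.Agent.H64.GW.Rigid

/-!
# The Gromov-Witten variation is not locally equivalent to a polarized variation
-/

open scoped Manifold ContDiff Topology
open Laplacian ComplexConjugate Filter

namespace Pool.Agent.H64.GW

section local_model

variable {T : Type} [NormedAddCommGroup T] [NormedSpace ℂ T]
  {C : T →ₗ[ℂ] T →ₗ[ℂ] Module.Dual ℂ T}
  {E : Type} [NormedAddCommGroup E] [NormedSpace ℂ E]
  {O : Set T} {Ψ : T → (HEven T ≃ₗ[ℂ] E)}

theorem hasDerivAt_line' (hΨ : ∀ x ∈ O, ∀ a, DifferentiableAt ℂ (fun x => Ψ x a) x ∧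
      ∀ y, fderiv ℂ (fun x => Ψ x a) x y = Ψ x (cup C y a)) (x y : T) (a : HEven T) (z : ℂ)
    (hz : x + z • y ∈ O) :
    HasDerivAt (fun z : ℂ => Ψ (x + z • y) a) (Ψ (x + z • y) (cup C y a)) z := by
  have h1 : HasDerivAt (fun z : ℂ => x + z • y) y z := by
    have := ((hasDerivAt_id z).smul_const y).const_add x
    simpa using this
  have h2 := (hΨ _ hz a).1.hasFDerivAt.comp_hasDerivAt z h1
  rw [(hΨ _ hz a).2 y] at h2
  exact h2

theorem cup_apply (x : T) (a : HEven T) : cup C x a = (0, a.1 • x, C x a.2.1, a.2.2.1 x) := rfl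

theorem cup_four (y : T) (a : HEven T) : cup C y (cup C y (cup C y (cup C y a))) = 0 := by
  simp [cup_apply]

/-- the flat continuation of a vector along a line -/
noncomputable def flatPoly (C : T →ₗ[ℂ] T →ₗ[ℂ] Module.Dual ℂ T) (y : T) (a : HEven T) (z : ℂ) :
    HEven T :=
  a - z • cup C y a + (z ^ 2 / 2) • cup C y (cup C y a)
    - (z ^ 3 / 6) • cup C y (cup C y (cup C y a))

theorem flatPoly_zero (y : T) (a : HEven T) : flatPoly C y a 0 = a := by
  simp [flatPoly]

theorem flatPoly_const (hΨ : ∀ x ∈ O, ∀ a, DifferentiableAt ℂ (fun x => Ψ x a) x ∧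
      ∀ y, fderiv ℂ (fun x => Ψ x a) x y = Ψ x (cup C y a)) (x y : T) (a : HEven T) {δ : ℝ}
    (hδ : ∀ z ∈ Metric.ball (0 : ℂ) δ, x + z • y ∈ O) {z : ℂ} (hz : z ∈ Metric.ball (0 : ℂ) δ) :
    Ψ (x + z • y) (flatPoly C y a z) = Ψ x a := by
  have hd : ∀ z ∈ Metric.ball (0 : ℂ) δ,
      HasDerivAt (fun z : ℂ => Ψ (x + z • y) (flatPoly C y a z)) 0 z := by
    intro z hz
    have hm := hδ z hz
    have e0 := hasDerivAt_line' hΨ x y a z hm
    have e1 := hasDerivAt_line' hΨ x y (cup C y a) z hm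
    have e2 := hasDerivAt_line' hΨ x y (cup C y (cup C y a)) z hm
    have e3 := hasDerivAt_line' hΨ x y (cup C y (cup C y (cup C y a))) z hm
    have p1 : HasDerivAt (fun z : ℂ => z) 1 z := hasDerivAt_id z
    have p2 : HasDerivAt (fun z : ℂ => z ^ 2 / 2) z z := by
      have := (p1.pow 2).div_const 2
      refine this.congr_deriv ?_
      simp
    have p3 : HasDerivAt (fun z : ℂ => z ^ 3 / 6) (z ^ 2 / 2) z := by
      have := (p1.pow 3).div_const 6
      refine this.congr_deriv ?_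
      simp
      ring
    have key := ((e0.sub (p1.smul e1)).add (p2.smul e2)).sub (p3.smul e3)
    rw [cup_four, map_zero] at key
    have hfun : (fun z : ℂ => Ψ (x + z • y) (flatPoly C y a z)) =
        (((fun z : ℂ => Ψ (x + z • y) a) - (fun z : ℂ => z) • fun z : ℂ =>
          Ψ (x + z • y) (cup C y a)) + (fun z : ℂ => z ^ 2 / 2) • fun z : ℂ =>
          Ψ (x + z • y) (cup C y (cup C y a))) - (fun z : ℂ => z ^ 3 / 6) • fun z : ℂ =>
          Ψ (x + z • y) (cup C y (cup C y (cup C y a))) := by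
      funext z
      simp only [flatPoly, map_add, map_sub, map_smul, Pi.add_apply, Pi.sub_apply, Pi.smul_apply']
    rw [hfun]
    refine key.congr_deriv ?_
    simp only [smul_zero, zero_add, one_smul, add_zero]
    abel
  have h0 : (0 : ℂ) ∈ Metric.ball (0 : ℂ) δ := by
    have : 0 < δ := lt_of_le_of_lt (dist_nonneg) hz
    exact Metric.mem_ball_self this
  have := (convex_ball (0 : ℂ) δ).is_const_of_fderivWithin_eq_zero (𝕜 := ℂ)
    (f := fun z : ℂ => Ψ (x + z • y) (flatPoly C y a z))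
    (fun z hz => (hd z hz).differentiableAt.differentiableWithinAt)
    (fun z hz => by
      rw [fderivWithin_of_isOpen Metric.isOpen_ball hz]
      have := (hd z hz).hasFDerivAt.fderiv
      rw [this]
      ext
      simp) h0 hz
  rw [← this, flatPoly_zero, zero_smul, add_zero]

end local_model

section filtration

variable {T : Type} [AddCommGroup T] [Module ℂ T]

theorem mem_deg {k : ℤ} {a : HEven T} : a ∈ degFiltration T k ↔
    (k < 0 → a.1 = 0) ∧ (k < 1 → a.2.1 = 0) ∧ (k < 2 → a.2.2.1 = 0) ∧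
    (k < 3 → a.2.2.2 = 0) := Iff.rfl

theorem deg_neg {k : ℤ} (hk : k < 0) : degFiltration T k = ⊥ := by
  rw [eq_bot_iff]
  intro a ha
  rw [mem_deg] at ha
  rw [Submodule.mem_bot]
  ext1
  · exact ha.1 hk
  · ext1
    · exact ha.2.1 (by omega)
    · ext1
      · exact ha.2.2.1 (by omega)
      · exact ha.2.2.2 (by omega)

theorem deg_mono : Monotone (degFiltration T) := by
  intro k m hkm a ha
  rw [mem_deg] at ha ⊢
  exact ⟨fun h => ha.1 (by omega), fun h => ha.2.1 (by omega), fun h => ha.2.2.1 (by omega),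
    fun h => ha.2.2.2 (by omega)⟩

theorem mem_deg_zero {a : HEven T} : a ∈ degFiltration T 0 ↔ ∃ α : ℂ, a = (α, 0, 0, 0) := by
  rw [mem_deg]
  constructor
  · intro h
    refine ⟨a.1, ?_⟩
    ext1
    · rfl
    · ext1
      · exact h.2.1 (by omega)
      · ext1
        · exact h.2.2.1 (by omega)
        · exact h.2.2.2 (by omega)
  · rintro ⟨α, rfl⟩
    exact ⟨by omega, fun _ => rfl, fun _ => rfl, fun _ => rfl⟩

theorem mem_deg_one {a : HEven T} : a ∈ degFiltration T 1 ↔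
    ∃ (α : ℂ) (w : T), a = (α, w, 0, 0) := by
  rw [mem_deg]
  constructor
  · intro h
    refine ⟨a.1, a.2.1, ?_⟩
    ext1
    · rfl
    · ext1
      · rfl
      · ext1
        · exact h.2.2.1 (by omega)
        · exact h.2.2.2 (by omega)
  · rintro ⟨α, w, rfl⟩
    exact ⟨by omega, by omega, fun _ => rfl, fun _ => rfl⟩

theorem finrank_deg_zero : Module.finrank ℂ (degFiltration T 0) = 1 := by
  have h1 : ((1 : ℂ), (0 : T), (0 : Module.Dual ℂ T), (0 : ℂ)) ∈ degFiltration T 0 :=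
    mem_deg_zero.2 ⟨1, rfl⟩
  rw [finrank_eq_one_iff_of_nonzero' (⟨_, h1⟩ : degFiltration T 0)]
  · rintro ⟨a, ha⟩
    obtain ⟨α, rfl⟩ := mem_deg_zero.1 ha
    exact ⟨α, Subtype.ext (by simp)⟩
  · intro h
    have := congrArg (fun x : degFiltration T 0 => x.1.1) h
    simp at this

end filtration

section main

variable {T : Type} [NormedAddCommGroup T] [NormedSpace ℂ T]
  {C : T →ₗ[ℂ] T →ₗ[ℂ] Module.Dual ℂ T}
  {𝕄 : Type} [NormedAddCommGroup 𝕄] [NormedSpace ℂ 𝕄]
  {S : Type} [TopologicalSpace S] [ChartedSpace 𝕄 S]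
  {Γ : Type} [Group Γ] [MulAction Γ S]
  {E : Type} [NormedAddCommGroup E] [NormedSpace ℂ E]

theorem map_mem_iff {Ψ : HEven T ≃ₗ[ℂ] E} {G : Submodule ℂ (HEven T)} {a : HEven T} :
    Ψ a ∈ G.map (Ψ : HEven T →ₗ[ℂ] E) ↔ a ∈ G := by
  constructor
  · rintro ⟨b, hb, hab⟩
    have : b = a := Ψ.injective hab
    rwa [← this]
  · intro h
    exact Submodule.mem_map_of_mem h

/-- **Main theorem.** Let `C` be a nonzero cubic form on `T = H² (V, ℂ)` whose annihilator is
the line spanned by `r ≠ 0`. Then the Gromov-Witten variation (without quantum corrections) is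
not locally equivalent, near any point, to any polarized variation over any connected base with
the Liouville property. -/
theorem not_locallyEquivalent [PreconnectedSpace S] [IsManifold 𝓘(ℂ, 𝕄) 1 S]
    [FiniteDimensional ℂ E]
    (hsymm : ∀ x y z, C x y z = C y x z) (hC : ∃ y, C y y ≠ 0) {r : T} (hr0 : r ≠ 0)
    (hr : C r = 0) (hAnn : ∀ w, C w = 0 → ∃ c : ℂ, w = c • r)
    (hL : IsLiouville 𝕄 S Γ) (X : PolarizedVariation 𝕄 S Γ E) (x₀ : T) (s₀ : S) :
    ¬ LocallyEquivalent (𝕄 := 𝕄) C x₀ X.F s₀ := by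
  have hcomplete : CompleteSpace E := FiniteDimensional.complete ℂ E
  rintro ⟨O, j, j', Ψ, hO, hx₀, hj₀, hjO, hj, hj', hΨ, hk, hp⟩
  have hsymm' : ∀ x y, C x y = C y x := fun x y => LinearMap.ext (hsymm x y)
  have hCr : ∀ y, C y r = 0 := by
    intro y
    rw [hsymm', hr]
    rfl
  -- the index of the top step
  set P : ℤ → Prop := fun p => ∀ x ∈ O, X.F p (j x) = (degFiltration T 0).map
    (Ψ x : HEven T →ₗ[ℂ] E) with hP
  have hone : ∀ x, Ψ x (1, 0, 0, 0) ≠ 0 := by
    intro x h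
    rw [LinearEquiv.map_eq_zero_iff] at h
    have := congrArg Prod.fst h
    simp at this
  have hbdd : ∃ b : ℤ, ∀ p : ℤ, P p → p ≤ b := by
    obtain ⟨q, hq⟩ := X.exists_eq_bot s₀
    refine ⟨q, fun p hp => ?_⟩
    by_contra hlt
    have h1 := X.antitone s₀ (show q ≤ p by omega)
    simp only [hq] at h1
    have h2 := hp x₀ hx₀
    rw [hj₀] at h2
    have h3 : Ψ x₀ (1, 0, 0, 0) ∈ X.F p s₀ := by
      rw [h2, map_mem_iff]
      exact mem_deg_zero.2 ⟨1, rfl⟩
    exact hone x₀ ((Submodule.mem_bot ℂ).1 (h1 h3))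
  obtain ⟨p₀, hp₀, hmax⟩ := Int.exists_greatest_of_bdd hbdd (hk 0)
  -- the step above the top step vanishes
  have htop : ∀ x ∈ O, X.F (p₀ + 1) (j x) = ⊥ := by
    obtain ⟨k, hk'⟩ := hp (p₀ + 1)
    by_cases hk0 : k < 0
    · intro x hx
      rw [hk' x hx, deg_neg hk0, Submodule.map_bot]
    · exfalso
      have h1 : P (p₀ + 1) := by
        intro x hx
        apply le_antisymm
        · rw [← hp₀ x hx]
          exact X.antitone (j x) (by omega)
        · rw [hk' x hx]
          exact Submodule.map_mono (deg_mono (by omega))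
      have := hmax _ h1
      omega
  have hline : ∀ s, Module.finrank ℂ (X.F p₀ s) = 1 := by
    intro s
    rw [X.finrank_const p₀ s s₀, ← hj₀, hp₀ x₀ hx₀,
      (Submodule.equivMapOfInjective (Ψ x₀ : HEven T →ₗ[ℂ] E) (Ψ x₀).injective
      (degFiltration T 0)).finrank_eq.symm]
    exact finrank_deg_zero
  have hbot : ∀ s, X.F (p₀ + 1) s = ⊥ := by
    intro s
    rw [← Submodule.finrank_eq_zero, X.finrank_const (p₀ + 1) s s₀, ← hj₀, htop x₀ hx₀,
      finrank_bot]
  -- the second step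
  have hle : ∀ x ∈ O, X.F (p₀ - 1) (j x) ≤ (degFiltration T 1).map
      (Ψ x : HEven T →ₗ[ℂ] E) := by
    obtain ⟨p₁, hp₁⟩ := hk 1
    intro x hx
    rw [← hp₁ x hx]
    apply X.antitone (j x)
    by_contra hlt
    have h1 := X.antitone (j x) (show p₀ ≤ p₁ by omega)
    simp only [hp₁ x hx, hp₀ x hx] at h1
    have h2 : Ψ x (0, r, 0, 0) ∈ (degFiltration T 1).map (Ψ x : HEven T →ₗ[ℂ] E) :=
      map_mem_iff.2 (mem_deg_one.2 ⟨0, r, rfl⟩)
    obtain ⟨α, hα⟩ := mem_deg_zero.1 (map_mem_iff.1 (h1 h2))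
    have := congrArg (fun a : HEven T => a.2.1) hα
    exact hr0 this
  -- holomorphic curves through points of `O`
  have hcurve : ∀ x ∈ O, ∀ y : T, ∀ᶠ z in 𝓝 (0 : ℂ), x + z • y ∈ O := by
    intro x hx y
    have h1 : Tendsto (fun z : ℂ => x + z • y) (𝓝 0) (𝓝 x) := by
      have : Continuous (fun z : ℂ => x + z • y) := by fun_prop
      simpa using this.tendsto 0
    exact h1.eventually (hO.eventually_mem hx)
  have hframe : ∀ x ∈ O, ∀ y : T, ∀ᶠ z in 𝓝 (0 : ℂ),
      MDifferentiableAt 𝓘(ℂ) 𝓘(ℂ, 𝕄) (fun z : ℂ => j (x + z • y)) z ∧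
      DifferentiableAt ℂ (fun z : ℂ => Ψ (x + z • y) (1, 0, 0, 0)) z ∧
      Ψ (x + z • y) (1, 0, 0, 0) ∈ X.F p₀ (j (x + z • y)) := by
    intro x hx y
    filter_upwards [hcurve x hx y] with z hz
    refine ⟨?_, ?_, ?_⟩
    · have h2 : MDifferentiableAt 𝓘(ℂ) 𝓘(ℂ, T) (fun z : ℂ => x + z • y) z := by
        rw [mdifferentiableAt_iff_differentiableAt]
        fun_prop
      exact (hj _ hz).comp z h2
    · exact (hasDerivAt_line' hΨ x y _ z hz).differentiableAt
    · rw [hp₀ _ hz, map_mem_iff]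
      exact mem_deg_zero.2 ⟨1, rfl⟩
  have hderiv : ∀ x ∈ O, ∀ y : T,
      deriv (fun z : ℂ => Ψ (x + z • y) (1, 0, 0, 0)) 0 = Ψ x (0, y, 0, 0) := by
    intro x hx y
    have h0 : x + (0 : ℂ) • y ∈ O := by simpa using hx
    rw [(hasDerivAt_line' hΨ x y _ 0 h0).deriv]
    simp [cup_apply]
  have hge : ∀ x ∈ O, ∀ y : T, Ψ x (0, y, 0, 0) ∈ X.F (p₀ - 1) (j x) := by
    intro x hx y
    have h1 := X.griffiths p₀ (fun z : ℂ => j (x + z • y))
      (fun z : ℂ => Ψ (x + z • y) (1, 0, 0, 0)) 0 (hframe x hx y)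
    rw [hderiv x hx y] at h1
    simpa using h1
  -- the flat vector
  obtain ⟨ε, hε, hball⟩ := Metric.isOpen_iff.1 hO x₀ hx₀
  set rE := Ψ x₀ (0, r, 0, 0) with hrE
  have hrE0 : rE ≠ 0 := by
    intro h
    rw [hrE, LinearEquiv.map_eq_zero_iff] at h
    exact hr0 (congrArg (fun a : HEven T => a.2.1) h)
  have hrconst : ∀ x ∈ Metric.ball x₀ ε, Ψ x (0, r, 0, 0) = rE := by
    intro x hx
    have hconv := (convex_ball x₀ ε).is_const_of_fderivWithin_eq_zero (𝕜 := ℂ)
      (f := fun x => Ψ x (0, r, 0, 0))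
      (fun x hx => (hΨ x (hball hx) _).1.differentiableWithinAt)
      (fun x hx => by
        rw [fderivWithin_of_isOpen Metric.isOpen_ball hx]
        ext y
        rw [(hΨ x (hball hx) _).2 y]
        simp [cup_apply, hCr]) (Metric.mem_ball_self hε) hx
    exact hconv.symm
  have hnhd : ∀ᶠ s in 𝓝 s₀, ∃ x ∈ Metric.ball x₀ ε, s = j x := by
    have h1 : ContinuousAt j' s₀ := by
      rw [← hj₀]
      exact (hj' x₀ hx₀).2.continuousAt
    have h2 : j' s₀ = x₀ := by rw [← hj₀]; exact (hj' x₀ hx₀).1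
    have h3 : ∀ᶠ s in 𝓝 s₀, j' s ∈ Metric.ball x₀ ε := by
      apply h1.eventually
      rw [h2]
      exact Metric.ball_mem_nhds _ hε
    have h4 : ∀ᶠ s in 𝓝 s₀, s ∈ j '' O := hjO.eventually_mem ⟨x₀, hx₀, hj₀⟩
    filter_upwards [h3, h4] with s h5 h6
    obtain ⟨x, hx, rfl⟩ := h6
    rw [(hj' x hx).1] at h5
    exact ⟨x, h5, rfl⟩
  have hrall : ∀ s, rE ∈ X.F (p₀ - 1) s := by
    apply X.mem_of_eventually (p₀ - 1) rE (s₁ := s₀)
    filter_upwards [hnhd] with s hs
    obtain ⟨x, hx, rfl⟩ := hs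
    rw [← hrconst x hx]
    exact hge x (hball hx) r
  -- the flat line is stable under the monodromy
  have hstab : ∀ γ : Γ, ∃ χ : ℂ, X.ρ γ rE = χ • rE := by
    intro γ
    have hv : ∀ s, X.ρ γ rE ∈ X.F (p₀ - 1) s := by
      intro s
      have h1 : s = γ • (γ⁻¹ • s) := by rw [smul_inv_smul]
      rw [h1, X.equivariant]
      exact Submodule.mem_map_of_mem (hrall _)
    set v := X.ρ γ rE with hvdef
    have hv0 := hle x₀ hx₀ (hv (j x₀))
    obtain ⟨a, ha, hav⟩ := hv0
    obtain ⟨α, w, rfl⟩ := mem_deg_one.1 ha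
    have hkey : ∀ y : T, C y w = 0 ∧ α • C y y = 0 := by
      intro y
      obtain ⟨δ, hδ, hδ'⟩ := Metric.eventually_nhds_iff_ball.1 (hcurve x₀ hx₀ y)
      have hz : ∀ z ∈ Metric.ball (0 : ℂ) δ, -(z • C y w) + (z ^ 2 / 2) • (α • C y y) = 0 := by
        intro z hz
        have h1 := flatPoly_const hΨ x₀ y (α, w, 0, 0) hδ' hz
        have h2 := hle _ (hδ' z hz) (hv (j (x₀ + z • y)))
        have h3 : Ψ (x₀ + z • y) (flatPoly C y (α, w, 0, 0) z) = v := by
          rw [h1]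
          exact hav
        rw [← h3, map_mem_iff] at h2
        obtain ⟨α', w', h4⟩ := mem_deg_one.1 h2
        have h5 := congrArg (fun a : HEven T => a.2.2.1) h4
        simp only [flatPoly, cup_apply, Prod.snd_sub, Prod.snd_add, Prod.smul_snd, Prod.fst_sub,
          Prod.fst_add, Prod.smul_fst, map_smul, smul_zero, sub_zero, zero_sub, map_zero,
          zero_smul] at h5
        exact h5
      have hd2 : ((δ / 2 : ℝ) : ℂ) ∈ Metric.ball (0 : ℂ) δ := by
        rw [mem_ball_zero_iff, Complex.norm_real, Real.norm_eq_abs, abs_of_pos (by positivity)]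
        linarith
      have hd4 : ((δ / 4 : ℝ) : ℂ) ∈ Metric.ball (0 : ℂ) δ := by
        rw [mem_ball_zero_iff, Complex.norm_real, Real.norm_eq_abs, abs_of_pos (by positivity)]
        linarith
      have k1 := hz _ hd2
      have k2 := hz _ hd4
      have hδC : (δ : ℂ) ≠ 0 := by exact_mod_cast hδ.ne'
      push_cast at k1 k2
      have k3 : ((δ : ℂ) ^ 2 / 16) • (α • C y y) = 0 := by
        have : ((δ : ℂ) ^ 2 / 16) • (α • C y y) =
            (-(((δ : ℂ) / 2) • C y w) + (((δ : ℂ) / 2) ^ 2 / 2) • (α • C y y))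
            - (2 : ℂ) • (-(((δ : ℂ) / 4) • C y w) + (((δ : ℂ) / 4) ^ 2 / 2) • (α • C y y)) := by
          module
        rw [this, k1, k2]
        simp
      have k4 : α • C y y = 0 := by
        have : ((δ : ℂ) ^ 2 / 16) ≠ 0 := div_ne_zero (pow_ne_zero 2 hδC) (by norm_num)
        exact (smul_eq_zero.1 k3).resolve_left this
      refine ⟨?_, k4⟩
      rw [k4, smul_zero, add_zero, neg_eq_zero] at k1
      exact (smul_eq_zero.1 k1).resolve_left (by
        exact div_ne_zero hδC two_ne_zero)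
    have hα : α = 0 := by
      obtain ⟨y, hy⟩ := hC
      exact (smul_eq_zero.1 (hkey y).2).resolve_right hy
    have hw : C w = 0 := by
      apply LinearMap.ext
      intro y
      rw [hsymm', (hkey y).1, LinearMap.zero_apply]
    obtain ⟨c, hc⟩ := hAnn w hw
    refine ⟨c, ?_⟩
    have h6 : ((α, w, 0, 0) : HEven T) = c • ((0, r, 0, 0) : HEven T) := by
      rw [hα, hc]
      ext <;> simp
    have h7 : v = Ψ x₀ (α, w, 0, 0) := hav.symm
    rw [h7, h6, map_smul]
  -- a point where the pairing does not vanish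
  have hLor : ∀ x ∈ O, Lorentz (X.sgn p₀) (X.F (p₀ - 1) (j x)) (Ψ x (1, 0, 0, 0)) := by
    intro x hx
    apply X.lorentz hbot hline _ (hone x)
    rw [hp₀ x hx, map_mem_iff]
    exact mem_deg_zero.2 ⟨1, rfl⟩
  obtain ⟨x₁, hx₁, hpair⟩ : ∃ x₁ ∈ Metric.ball x₀ ε,
      X.sgn p₀ rE (Ψ x₁ (1, 0, 0, 0)) ≠ 0 := by
    by_contra hcon
    push Not at hcon
    have h0ball : x₀ ∈ Metric.ball x₀ ε := Metric.mem_ball_self hε
    have h1 : X.sgn p₀ rE rE = 0 := by
      have h2 := hasDerivAt_line' hΨ x₀ r (1, 0, 0, 0) 0 (by simpa using hx₀)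
      have h3 := (X.sgn p₀ rE).hasFDerivAt.comp_hasDerivAt (0 : ℂ) h2
      have h4 : ((X.sgn p₀ rE) ∘ fun z : ℂ => Ψ (x₀ + z • r) (1, 0, 0, 0)) =ᶠ[𝓝 0] fun _ => 0 := by
        have h5 : Tendsto (fun z : ℂ => x₀ + z • r) (𝓝 0) (𝓝 x₀) := by
          have : Continuous (fun z : ℂ => x₀ + z • r) := by fun_prop
          simpa using this.tendsto 0
        filter_upwards [h5.eventually (Metric.ball_mem_nhds x₀ hε)] with z hz
        exact hcon _ hz
      have h6 := h3.deriv
      rw [h4.deriv_eq, deriv_const] at h6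
      simp only [cup_apply, zero_smul, add_zero, one_smul, map_zero] at h6
      exact h6.symm
    exact (hLor x₀ hx₀).pair_ne (hrall _) hrE0 (by rw [h1]; simp) (hcon x₀ h0ball)
  -- rigidity gives the contradiction
  obtain ⟨y, hy⟩ := hC
  have hx₁O := hball hx₁
  have h1 := X.rigidity hbot hline hrE0 hrall hL hstab (hframe x₁ hx₁O y)
    (by simpa using hone x₁) (by simpa using hpair)
  obtain ⟨a, c, hac⟩ := h1
  rw [hderiv x₁ hx₁O y, ← hrconst x₁ hx₁] at hac
  simp only [zero_smul, add_zero] at hac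
  rw [← map_smul, ← map_smul, ← map_add] at hac
  have h2 := (Ψ x₁).injective hac
  have h3 := congrArg (fun a : HEven T => a.2.1) h2
  simp only [Prod.snd_add, Prod.smul_snd, Prod.fst_add, Prod.smul_fst, smul_zero, zero_add] at h3
  apply hy
  rw [h3, map_smul C, LinearMap.smul_apply, hr, LinearMap.zero_apply, smul_zero]

end main

end Pool.Agent.H64.GW
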