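import Mathlib

/-!
# The Laplacian of Hermitian forms evaluated on holomorphic curves
-/

open InnerProductSpace Laplacian Filter Topology ComplexConjugate

namespace Pool.Agent.H64.GW

/-- the second directional derivative as an iterated derivative along a line -/
theorem iteratedFDeriv_two_line {u : ℂ → ℝ} {z : ℂ} (hu : ContDiffAt ℝ 2 u z) (v : ℂ) :
    iteratedFDeriv ℝ 2 u z ![v, v] = deriv (deriv (fun t : ℝ => u (z + t * v))) 0 := by
  rw [iteratedFDeriv_two_apply]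
  have h1 : ∀ᶠ w in 𝓝 z, DifferentiableAt ℝ u w := by
    have := hu.eventually (by simp)
    filter_upwards [this] with w hw
    exact hw.differentiableAt (by norm_num)
  have hline : Tendsto (fun t : ℝ => z + t * v) (𝓝 0) (𝓝 z) := by
    have : Continuous (fun t : ℝ => z + t * v) := by fun_prop
    simpa using this.tendsto 0
  have hd : ∀ t : ℝ, HasDerivAt (fun t : ℝ => z + t * v) v t := by
    intro t
    have := ((Complex.ofRealCLM.hasDerivAt (x := t)).mul_const v).const_add z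
    simpa using this
  have h2 : deriv (fun t : ℝ => u (z + t * v)) =ᶠ[𝓝 0] fun t : ℝ => fderiv ℝ u (z + t * v) v := by
    filter_upwards [hline.eventually h1] with t ht
    have := ht.hasFDerivAt.comp_hasDerivAt t (hd t)
    exact this.deriv
  rw [h2.deriv_eq]
  have h3 : DifferentiableAt ℝ (fderiv ℝ u) z := by
    have := hu.fderiv_right (m := 1) (by norm_num)
    exact this.differentiableAt (by norm_num)
  have h3' : DifferentiableAt ℝ (fderiv ℝ u) (z + ((0 : ℝ) : ℂ) * v) := by simpa using h3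
  have h4 := h3'.hasFDerivAt.comp_hasDerivAt (0 : ℝ) (hd 0)
  have h5 := h4.clm_apply (hasDerivAt_const (0 : ℝ) v)
  have h6 := h5.deriv
  simp only [Function.comp_def] at h6
  rw [h6]
  simp

theorem laplacian_eq_lines {u : ℂ → ℝ} {z : ℂ} (hu : ContDiffAt ℝ 2 u z) :
    Δ u z = deriv (deriv (fun t : ℝ => u (z + t * 1))) 0
      + deriv (deriv (fun t : ℝ => u (z + t * Complex.I))) 0 := by
  rw [laplacian_eq_iteratedFDeriv_complexPlane]
  simp only
  rw [iteratedFDeriv_two_line hu, iteratedFDeriv_two_line hu]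

theorem deriv_deriv_quot {n d : ℝ → ℝ} (hn : ContDiffAt ℝ 2 n 0) (hd : ContDiffAt ℝ 2 d 0)
    (h0 : d 0 ≠ 0) (h1 : deriv d 0 = 0) :
    deriv (deriv (fun t => -(n t / d t))) 0
      = (n 0 * deriv (deriv d) 0 - deriv (deriv n) 0 * d 0) / d 0 ^ 2 := by
  have en : ∀ᶠ t in 𝓝 (0 : ℝ), DifferentiableAt ℝ n t := by
    filter_upwards [hn.eventually (by simp)] with w hw
    exact hw.differentiableAt (by norm_num)
  have ed : ∀ᶠ t in 𝓝 (0 : ℝ), DifferentiableAt ℝ d t := by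
    filter_upwards [hd.eventually (by simp)] with w hw
    exact hw.differentiableAt (by norm_num)
  have e0 : ∀ᶠ t in 𝓝 (0 : ℝ), d t ≠ 0 := hd.continuousAt.eventually_ne h0
  have e1 : deriv (fun t => -(n t / d t)) =ᶠ[𝓝 0]
      fun t => -((deriv n t * d t - n t * deriv d t) / d t ^ 2) := by
    filter_upwards [en, ed, e0] with t h2 h3 h4
    exact ((h2.hasDerivAt.div h3.hasDerivAt h4).neg).deriv
  rw [e1.deriv_eq]
  have dn : DifferentiableAt ℝ (deriv n) 0 := by
    have h2 : ContDiffAt ℝ 1 (fun t => fderiv ℝ n t 1) 0 :=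
      (hn.fderiv_right (m := 1) (by norm_num)).clm_apply contDiffAt_const
    exact h2.differentiableAt (by norm_num)
  have dd : DifferentiableAt ℝ (deriv d) 0 := by
    have h2 : ContDiffAt ℝ 1 (fun t => fderiv ℝ d t 1) 0 :=
      (hd.fderiv_right (m := 1) (by norm_num)).clm_apply contDiffAt_const
    exact h2.differentiableAt (by norm_num)
  have hn1 := (hn.differentiableAt (by norm_num)).hasDerivAt
  have hd1 := (hd.differentiableAt (by norm_num)).hasDerivAt
  rw [h1] at hd1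
  have h5 := ((((dn.hasDerivAt.mul hd1).sub (hn1.mul dd.hasDerivAt)).div (hd1.pow 2)
    (pow_ne_zero 2 h0)).neg).deriv
  simp only [Pi.mul_apply, Pi.pow_apply, Pi.sub_apply, Pi.div_apply, Pi.neg_apply] at h5
  have h6 : (fun t => -((deriv n t * d t - n t * deriv d t) / d t ^ 2)) =
      -((deriv n * d - n * deriv d) / d ^ 2) := by
    funext t
    simp
  rw [h6, h5, h1]
  field_simp
  ring

section herm

variable {E : Type*} [NormedAddCommGroup E] [NormedSpace ℂ E]

/-- the real function `z ↦ h (l z, l z)` for a Hermitian form `h` -/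
noncomputable def hq (h : E →L⋆[ℂ] E →L[ℂ] ℂ) (l : ℂ → E) (z : ℂ) : ℝ := (h (l z) (l z)).re

variable {h : E →L⋆[ℂ] E →L[ℂ] ℂ} {l : ℂ → E} {z₀ : ℂ}

theorem hasDerivAt_line (hl : DifferentiableAt ℂ l z₀) (v : ℂ) (t : ℝ) {w : ℂ}
    (hw : z₀ = w + t * v) : HasDerivAt (fun t : ℝ => l (w + t * v)) (v • deriv l z₀) t := by
  have h1 : HasDerivAt (fun t : ℝ => w + t * v) v t := by
    have := ((Complex.ofRealCLM.hasDerivAt (x := t)).mul_const v).const_add w
    simpa using this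
  rw [hw] at hl ⊢
  exact hl.hasDerivAt.scomp t h1

theorem bounded_herm (h : E →L⋆[ℂ] E →L[ℂ] ℂ) :
    IsBoundedBilinearMap ℝ (fun p : E × E => h p.1 p.2) where
  add_left := fun x x' y => by simp
  smul_left := fun c x y => by
    have : c • x = (c : ℂ) • x := rfl
    simp only [this, map_smulₛₗ, ContinuousLinearMap.smul_apply]
    simp
  add_right := fun x y y' => by simp
  smul_right := fun c x y => by
    have : c • y = (c : ℂ) • y := rfl
    rw [this]
    simp
  bound := ⟨‖h‖ + 1, by positivity, fun x y => by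
    have h1 := h.le_opNorm₂ x y
    have h2 : 0 ≤ ‖x‖ * ‖y‖ := by positivity
    nlinarith [h1]⟩

theorem hasDerivAt_herm {l m : ℝ → E} {l' m' : E} {t : ℝ} (hl : HasDerivAt l l' t)
    (hm : HasDerivAt m m' t) :
    HasDerivAt (fun t => h (l t) (m t)) (h l' (m t) + h (l t) m') t := by
  have h1 := (bounded_herm h).hasFDerivAt (l t, m t)
  have h2 := h1.comp_hasDerivAt t (hl.prodMk hm)
  simp only [Function.comp_def] at h2
  refine h2.congr_deriv ?_
  simp [IsBoundedBilinearMap.deriv_apply, add_comm]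

theorem hasDerivAt_re {f : ℝ → ℂ} {f' : ℂ} {t : ℝ} (hf : HasDerivAt f f' t) :
    HasDerivAt (fun t => (f t).re) f'.re t :=
  (Complex.reCLM.hasFDerivAt.comp_hasDerivAt t hf)

theorem hasDerivAt_hq_line (herm : ∀ u v, h u v = conj (h v u))
    (hl : DifferentiableAt ℂ l z₀) (v : ℂ) (t : ℝ) {w : ℂ} (hw : z₀ = w + t * v) :
    HasDerivAt (fun t : ℝ => hq h l (w + t * v)) (2 * (v * h (l z₀) (deriv l z₀)).re) t := by
  have h1 := hasDerivAt_line hl v t hw
  have h2 := hasDerivAt_re (hasDerivAt_herm (h := h) h1 h1)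
  refine h2.congr_deriv ?_
  rw [herm (v • deriv l z₀) _, ← hw]
  simp only [map_smul, smul_eq_mul, Complex.add_re, Complex.conj_re]
  ring

theorem laplacian_hq [CompleteSpace E] (herm : ∀ u v, h u v = conj (h v u))
    (hl : ∀ᶠ z in 𝓝 z₀, DifferentiableAt ℂ l z) :
    ContDiffAt ℝ 2 (hq h l) z₀ ∧
    Δ (hq h l) z₀ = 4 * (h (deriv l z₀) (deriv l z₀)).re := by
  have hcd : ContDiffAt ℂ 2 l z₀ := by
    obtain ⟨s, hs, hs2, hs3⟩ := eventually_nhds_iff.1 hl
    have : DifferentiableOn ℂ l s := fun z hz => (hs z hz).differentiableWithinAt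
    exact (this.contDiffOn hs2).contDiffAt (hs2.mem_nhds hs3)
  have hcdR : ContDiffAt ℝ 2 l z₀ := hcd.restrict_scalars ℝ
  have hcd' : ContDiffAt ℝ 2 (hq h l) z₀ := by
    have h1 : ContDiffAt ℝ 2 (fun z => h (l z) (l z)) z₀ :=
      (bounded_herm h).contDiff.contDiffAt.comp z₀ (hcdR.prodMk hcdR)
    exact Complex.reCLM.contDiff.contDiffAt.comp z₀ h1
  refine ⟨hcd', ?_⟩
  have hd1 : DifferentiableAt ℂ (deriv l) z₀ := by
    obtain ⟨s, hs, hs2, hs3⟩ := eventually_nhds_iff.1 hl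
    have : DifferentiableOn ℂ l s := fun z hz => (hs z hz).differentiableWithinAt
    exact (this.deriv hs2).differentiableAt (hs2.mem_nhds hs3)
  have key : ∀ v : ℂ, deriv (deriv (fun t : ℝ => hq h l (z₀ + t * v))) 0 =
      2 * (v * (h (v • deriv l z₀) (deriv l z₀) + h (l z₀) (v • deriv (deriv l) z₀))).re := by
    intro v
    have hline : Tendsto (fun t : ℝ => z₀ + t * v) (𝓝 0) (𝓝 z₀) := by
      have : Continuous (fun t : ℝ => z₀ + t * v) := by fun_prop
      simpa using this.tendsto 0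
    have e1 : deriv (fun t : ℝ => hq h l (z₀ + t * v)) =ᶠ[𝓝 0]
        fun t : ℝ => 2 * (v * h (l (z₀ + t * v)) (deriv l (z₀ + t * v))).re := by
      filter_upwards [hline.eventually hl] with t ht
      exact (hasDerivAt_hq_line herm ht v t rfl).deriv
    rw [e1.deriv_eq]
    have z0e : z₀ = z₀ + ((0 : ℝ) : ℂ) * v := by simp
    have a1 := hasDerivAt_line hl.self_of_nhds v 0 z0e
    have a2 := hasDerivAt_line hd1 v 0 z0e
    have a3 := (hasDerivAt_re ((hasDerivAt_herm (h := h) a1 a2).const_mul v)).const_mul 2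
    rw [← z0e] at a3
    exact a3.deriv
  rw [laplacian_eq_lines hcd', key, key]
  simp only [map_smul, map_smulₛₗ, smul_eq_mul, ContinuousLinearMap.smul_apply, map_one]
  simp only [Complex.mul_re, Complex.add_re, Complex.mul_im, Complex.add_im, Complex.conj_I,
    Complex.neg_re, Complex.neg_im, Complex.I_re, Complex.I_im, Complex.one_re, Complex.one_im]
  ring

theorem laplacian_quot {N D : ℂ → ℝ} (hN : ContDiffAt ℝ 2 N z₀) (hD : ContDiffAt ℝ 2 D z₀)
    (h0 : D z₀ ≠ 0) (h1 : deriv (fun t : ℝ => D (z₀ + t * 1)) 0 = 0)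
    (hI : deriv (fun t : ℝ => D (z₀ + t * Complex.I)) 0 = 0) :
    Δ (fun z => -(N z / D z)) z₀ = (N z₀ * Δ D z₀ - Δ N z₀ * D z₀) / D z₀ ^ 2 := by
  have hline : ∀ v : ℂ, ContDiffAt ℝ 2 (fun t : ℝ => z₀ + t * v) 0 := by
    intro v
    have : ContDiff ℝ 2 (fun t : ℝ => z₀ + (t : ℂ) * v) :=
      contDiff_const.add (Complex.ofRealCLM.contDiff.mul contDiff_const)
    exact this.contDiffAt
  have z0e : ∀ v : ℂ, z₀ + ((0 : ℝ) : ℂ) * v = z₀ := by intro v; simp
  have hN' : ∀ v : ℂ, ContDiffAt ℝ 2 (fun t : ℝ => N (z₀ + t * v)) 0 := fun v =>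
    ContDiffAt.comp (0 : ℝ) (by rw [z0e]; exact hN) (hline v)
  have hD' : ∀ v : ℂ, ContDiffAt ℝ 2 (fun t : ℝ => D (z₀ + t * v)) 0 := fun v =>
    ContDiffAt.comp (0 : ℝ) (by rw [z0e]; exact hD) (hline v)
  have hq : ContDiffAt ℝ 2 (fun z => -(N z / D z)) z₀ := (hN.div hD h0).neg
  rw [laplacian_eq_lines hq, laplacian_eq_lines hN, laplacian_eq_lines hD,
    deriv_deriv_quot (hN' 1) (hD' 1) (by simpa using h0) h1,
    deriv_deriv_quot (hN' Complex.I) (hD' Complex.I) (by simpa using h0) hI]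
  simp only [z0e]
  ring

theorem deriv_hq_line (herm : ∀ u v, h u v = conj (h v u))
    (hl : DifferentiableAt ℂ l z₀) (v : ℂ) :
    deriv (fun t : ℝ => hq h l (z₀ + t * v)) 0 = 2 * (v * h (l z₀) (deriv l z₀)).re :=
  (hasDerivAt_hq_line herm hl v 0 (by simp)).deriv

/-- the Laplacian of minus the quotient of two Hermitian forms on a holomorphic curve -/
theorem laplacian_ratio [CompleteSpace E] {b₁ b₂ : E →L⋆[ℂ] E →L[ℂ] ℂ}
    (herm₁ : ∀ u v, b₁ u v = conj (b₁ v u)) (herm₂ : ∀ u v, b₂ u v = conj (b₂ v u))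
    (hl : ∀ᶠ z in 𝓝 z₀, DifferentiableAt ℂ l z) (h0 : hq b₂ l z₀ ≠ 0) :
    ∃ μ : ℂ, b₂ (l z₀) (deriv l z₀ + μ • l z₀) = 0 ∧
      Δ (fun z => -(hq b₁ l z / hq b₂ l z)) z₀ =
        4 * (hq b₁ l z₀ * (b₂ (deriv l z₀ + μ • l z₀) (deriv l z₀ + μ • l z₀)).re
          - (b₁ (deriv l z₀ + μ • l z₀) (deriv l z₀ + μ • l z₀)).re * hq b₂ l z₀)
          / hq b₂ l z₀ ^ 2 := by
  have h00 : b₂ (l z₀) (l z₀) ≠ 0 := by
    intro h
    apply h0
    rw [hq, h, Complex.zero_re]
  set μ : ℂ := -(b₂ (l z₀) (deriv l z₀)) / b₂ (l z₀) (l z₀) with hμ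
  have hμ0 : b₂ (l z₀) (deriv l z₀ + μ • l z₀) = 0 := by
    rw [map_add, map_smul, smul_eq_mul, hμ]
    field_simp
    ring
  refine ⟨μ, hμ0, ?_⟩
  set m : ℂ → E := fun z => (1 + μ * (z - z₀)) • l z with hm
  have hmd : ∀ᶠ z in 𝓝 z₀, DifferentiableAt ℂ m z := by
    filter_upwards [hl] with z hz
    exact DifferentiableAt.smul (by fun_prop) hz
  have hm0 : m z₀ = l z₀ := by simp [hm]
  have hm1 : deriv m z₀ = deriv l z₀ + μ • l z₀ := by
    have h1 : HasDerivAt (fun z : ℂ => 1 + μ * (z - z₀)) μ z₀ := by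
      have := (((hasDerivAt_id z₀).sub_const z₀).const_mul μ).const_add 1
      simpa using this
    have h2 := (h1.smul hl.self_of_nhds.hasDerivAt).deriv
    rw [hm]
    refine h2.trans ?_
    simp
  have hscale : ∀ (b : E →L⋆[ℂ] E →L[ℂ] ℂ) (z : ℂ),
      hq b m z = ‖1 + μ * (z - z₀)‖ ^ 2 * hq b l z := by
    intro b z
    rw [hq, hm]
    simp only [map_smul, map_smulₛₗ, smul_eq_mul, ContinuousLinearMap.smul_apply]
    rw [← mul_assoc, mul_comm _ (conj _), Complex.conj_mul', hq]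
    have : ((‖1 + μ * (z - z₀)‖ : ℂ) ^ 2) = ((‖1 + μ * (z - z₀)‖ ^ 2 : ℝ) : ℂ) := by
      push_cast
      rfl
    rw [this, Complex.re_ofReal_mul]
  have hne : ∀ᶠ z in 𝓝 z₀, (1 + μ * (z - z₀)) ≠ 0 := by
    have : ContinuousAt (fun z : ℂ => 1 + μ * (z - z₀)) z₀ := by fun_prop
    exact this.eventually_ne (by simp)
  have heq : (fun z => -(hq b₁ l z / hq b₂ l z)) =ᶠ[𝓝 z₀]
      fun z => -(hq b₁ m z / hq b₂ m z) := by
    filter_upwards [hne] with z hz
    rw [hscale, hscale]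
    have : ‖1 + μ * (z - z₀)‖ ^ 2 ≠ 0 := pow_ne_zero 2 (norm_ne_zero_iff.2 hz)
    rw [mul_div_mul_left _ _ this]
  obtain ⟨c1, d1⟩ := laplacian_hq herm₁ hmd
  obtain ⟨c2, d2⟩ := laplacian_hq herm₂ hmd
  have e0 : ∀ b : E →L⋆[ℂ] E →L[ℂ] ℂ, hq b m z₀ = hq b l z₀ := by
    intro b
    rw [hq, hm0, hq]
  rw [(laplacian_congr_nhds heq).eq_of_nhds]
  rw [laplacian_quot c1 c2 (by rw [e0]; exact h0), d1, d2, e0, e0, hm1]
  · ring
  · rw [deriv_hq_line herm₂ hmd.self_of_nhds, hm0, hm1, hμ0]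
    simp
  · rw [deriv_hq_line herm₂ hmd.self_of_nhds, hm0, hm1, hμ0]
    simp

end herm

end Pool.Agent.H64.GW
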