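import Pool.Agent.H64.GW.Var

/-!
# The Gromov-Witten variation of a six-dimensional manifold without quantum corrections

Here the connection form is replaced by the cup product with classes of degree two.
-/

open scoped Manifold Topology

namespace Pool.Agent.H64.GW

section

variable {T : Type} [AddCommGroup T] [Module ℂ T]

/-- The cup product with a class `x` of degree two, for the cubic form `C`. -/
def cup (C : T →ₗ[ℂ] T →ₗ[ℂ] Module.Dual ℂ T) (x : T) : HEven T →ₗ[ℂ] HEven T where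
  toFun a := (0, a.1 • x, C x a.2.1, a.2.2.1 x)
  map_add' a b := by
    ext <;> simp [add_smul]
  map_smul' c a := by
    ext <;> simp [mul_smul]

end

/-- As `LocallyEq`, for the connection `∇ = d + (dx ∪ ·)`. -/
def LocallyEquivalent {T : Type} [NormedAddCommGroup T] [NormedSpace ℂ T]
    (C : T →ₗ[ℂ] T →ₗ[ℂ] Module.Dual ℂ T) (x₀ : T)
    {𝕄 : Type} [NormedAddCommGroup 𝕄] [NormedSpace ℂ 𝕄]
    {S : Type} [TopologicalSpace S] [ChartedSpace 𝕄 S]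
    {E : Type} [NormedAddCommGroup E] [NormedSpace ℂ E]
    (F : ℤ → S → Submodule ℂ E) (s₀ : S) : Prop :=
  ∃ (O : Set T) (j : T → S) (j' : S → T) (Ψ : T → (HEven T ≃ₗ[ℂ] E)),
    IsOpen O ∧ x₀ ∈ O ∧ j x₀ = s₀ ∧ IsOpen (j '' O) ∧
    (∀ x ∈ O, MDifferentiableAt 𝓘(ℂ, T) 𝓘(ℂ, 𝕄) j x) ∧
    (∀ x ∈ O, j' (j x) = x ∧ MDifferentiableAt 𝓘(ℂ, 𝕄) 𝓘(ℂ, T) j' (j x)) ∧
    (∀ x ∈ O, ∀ a, DifferentiableAt ℂ (fun x => Ψ x a) x ∧
      ∀ y, fderiv ℂ (fun x => Ψ x a) x y = Ψ x (cup C y a)) ∧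
    (∀ k : ℤ, ∃ p : ℤ, ∀ x ∈ O, F p (j x) = (degFiltration T k).map (Ψ x : HEven T →ₗ[ℂ] E)) ∧
    (∀ p : ℤ, ∃ k : ℤ, ∀ x ∈ O, F p (j x) = (degFiltration T k).map (Ψ x : HEven T →ₗ[ℂ] E))

end Pool.Agent.H64.GW
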