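import Pool.Agent.H64.GW.Model

/-!
# The Gromov-Witten connection of a manifold without quantum corrections
-/

open scoped Manifold Topology

namespace Pool.Agent.H64.GW

variable {T : Type} [AddCommGroup T] [Module ℂ T] {C : T →ₗ[ℂ] T →ₗ[ℂ] Module.Dual ℂ T}

theorem deriv_cubic (p q u w : ℂ) :
    deriv (fun t : ℂ => p + t * q + t ^ 2 * u + t ^ 3 * w) 0 = q := by
  have h : HasDerivAt (fun t : ℂ => p + t * q + t ^ 2 * u + t ^ 3 * w)
      (q + 2 * 0 ^ 1 * u + 3 * 0 ^ 2 * w) 0 := by
    have h1 := ((hasDerivAt_id (0 : ℂ)).mul_const q).const_add p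
    have h2 := (hasDerivAt_pow 2 (0 : ℂ)).mul_const u
    have h3 := (hasDerivAt_pow 3 (0 : ℂ)).mul_const w
    refine ((h1.add h2).add h3).congr_deriv ?_
    simp
  rw [h.deriv]
  ring

/-- the classical potential -/
noncomputable def classical (C : T →ₗ[ℂ] T →ₗ[ℂ] Module.Dual ℂ T) (γ : HEven T) : ℂ :=
  (1 / 6) * int (cupProduct C (cupProduct C γ γ) γ)

theorem prepotential_eq {H₂ : Type} [AddCommGroup H₂] (N : GWNumbers C H₂) (ω : H₂ → ℝ)
    (hω : ω 0 = 0) : prepotential ω N.I = classical C := by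
  funext γ
  unfold prepotential classical
  have h1 : ∀ β : H₂, β ≠ 0 → (∑' n : ℕ, if 3 ≤ n then
      (Real.exp (-ω β) : ℂ) / n.factorial * N.I n β γ else 0) = 0 := by
    intro β hβ
    have : ∀ n : ℕ, (if 3 ≤ n then
      (Real.exp (-ω β) : ℂ) / n.factorial * N.I n β γ else 0) = 0 := by
      intro n
      split_ifs with h
      · rw [N.nonzero n h β hβ, mul_zero]
      · rfl
    simp only [this, tsum_zero]
  rw [tsum_eq_single 0 h1, tsum_eq_single 3]
  · rw [if_pos le_rfl, N.zero_three, hω]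
    simp [Nat.factorial]
  · intro n hn
    split_ifs with h
    · rw [N.zero_of_three_lt n (by omega), mul_zero]
    · rfl

/-- the cup product as a bilinear map -/
def cupL (C : T →ₗ[ℂ] T →ₗ[ℂ] Module.Dual ℂ T) : HEven T →ₗ[ℂ] HEven T →ₗ[ℂ] HEven T :=
  LinearMap.mk₂ ℂ (cupProduct C)
    (by
      rintro ⟨a1, a2, a3, a4⟩ ⟨b1, b2, b3, b4⟩ ⟨c1, c2, c3, c4⟩
      simp only [cupProduct, Prod.mk_add_mk, map_add, LinearMap.add_apply, Prod.mk.injEq]
      exact ⟨by ring, by module, by module, by ring⟩)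
    (by
      rintro c ⟨a1, a2, a3, a4⟩ ⟨b1, b2, b3, b4⟩
      simp only [cupProduct, Prod.smul_mk, map_smul, LinearMap.smul_apply, smul_eq_mul,
        Prod.mk.injEq]
      exact ⟨by ring, by module, by module, by ring⟩)
    (by
      rintro ⟨a1, a2, a3, a4⟩ ⟨b1, b2, b3, b4⟩ ⟨c1, c2, c3, c4⟩
      simp only [cupProduct, Prod.mk_add_mk, map_add, LinearMap.add_apply, Prod.mk.injEq]
      exact ⟨by ring, by module, by module, by ring⟩)
    (by
      rintro c ⟨a1, a2, a3, a4⟩ ⟨b1, b2, b3, b4⟩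
      simp only [cupProduct, Prod.smul_mk, map_smul, LinearMap.smul_apply, smul_eq_mul,
        Prod.mk.injEq]
      exact ⟨by ring, by module, by module, by ring⟩)

theorem cupL_apply (a b : HEven T) : cupL C a b = cupProduct C a b := rfl

/-- integration as a linear map -/
def intL : HEven T →ₗ[ℂ] ℂ where
  toFun := int
  map_add' _ _ := rfl
  map_smul' _ _ := rfl

theorem intL_apply (a : HEven T) : intL a = int a := rfl

/-- the trilinear form `∫ x y z` -/
noncomputable def tri (C : T →ₗ[ℂ] T →ₗ[ℂ] Module.Dual ℂ T) (x y z : HEven T) : ℂ :=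
  intL (cupL C (cupL C x y) z)

theorem tri_def (x y z : HEven T) : tri C x y z = int (cupProduct C (cupProduct C x y) z) := rfl

theorem tri_comm₁ (hsymm : ∀ x y z, C x y z = C y x z) (x y z : HEven T) :
    tri C x y z = tri C y x z := by
  obtain ⟨x1, x2, x3, x4⟩ := x
  obtain ⟨y1, y2, y3, y4⟩ := y
  obtain ⟨z1, z2, z3, z4⟩ := z
  simp only [tri_def, cupProduct, int, LinearMap.add_apply, LinearMap.smul_apply, smul_eq_mul,
    map_add, map_smul, hsymm x2 y2 z2]
  ring

theorem tri_comm₂ (hsymm' : ∀ x y z, C x y z = C x z y) (x y z : HEven T) :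
    tri C x y z = tri C x z y := by
  obtain ⟨x1, x2, x3, x4⟩ := x
  obtain ⟨y1, y2, y3, y4⟩ := y
  obtain ⟨z1, z2, z3, z4⟩ := z
  simp only [tri_def, cupProduct, int, LinearMap.add_apply, LinearMap.smul_apply, smul_eq_mul,
    map_add, map_smul, hsymm' x2 y2 z2]
  ring

theorem classical_eq (γ : HEven T) : classical C γ = (1 / 6) * tri C γ γ γ := rfl

theorem classical_add (hsymm : ∀ x y z, C x y z = C y x z)
    (hsymm' : ∀ x y z, C x y z = C x z y) (a z : HEven T) (t : ℂ) :
    classical C (a + t • z) = classical C a + t * ((1 / 2) * tri C a a z)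
      + t ^ 2 * ((1 / 2) * tri C a z z) + t ^ 3 * classical C z := by
  have h1 : tri C a z a = tri C a a z := tri_comm₂ hsymm' _ _ _
  have h2 : tri C z a a = tri C a a z := by rw [tri_comm₁ hsymm, h1]
  have h3 : tri C z a z = tri C a z z := tri_comm₁ hsymm _ _ _
  have h4 : tri C z z a = tri C a z z := by rw [tri_comm₂ hsymm', h3]
  simp only [classical_eq]
  simp only [tri] at h1 h2 h3 h4 ⊢
  simp only [map_add, map_smul, LinearMap.add_apply, LinearMap.smul_apply, smul_eq_mul]
  rw [h1, h2, h3, h4]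
  ring

theorem tri_add_smul (hsymm : ∀ x y z, C x y z = C y x z) (a b y z : HEven T) (s : ℂ)
    (hab : a = b + s • y) : (1 / 2) * tri C a a z = (1 / 2) * tri C b b z
      + s * tri C b y z + s ^ 2 * ((1 / 2) * tri C y y z) + s ^ 3 * 0 := by
  have h1 : tri C y b z = tri C b y z := tri_comm₁ hsymm _ _ _
  subst hab
  simp only [tri] at h1 ⊢
  simp only [map_add, map_smul, LinearMap.add_apply, LinearMap.smul_apply, smul_eq_mul]
  rw [h1]
  ring

theorem thirdDeriv_classical (hsymm : ∀ x y z, C x y z = C y x z)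
    (hsymm' : ∀ x y z, C x y z = C x z y) (γ x y z : HEven T) :
    thirdDeriv (classical C) γ x y z = int (cupProduct C (cupProduct C x y) z) := by
  unfold thirdDeriv
  simp_rw [classical_add hsymm hsymm', deriv_cubic]
  have h1 : ∀ r s : ℂ, (1 / 2) * tri C (γ + r • x + s • y) (γ + r • x + s • y) z =
      (1 / 2) * tri C (γ + r • x) (γ + r • x) z
      + s * tri C (γ + r • x) y z + s ^ 2 * ((1 / 2) * tri C y y z) + s ^ 3 * 0 :=
    fun r s => tri_add_smul hsymm _ _ _ _ _ rfl
  simp_rw [h1, deriv_cubic]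
  have h2 : ∀ r : ℂ, tri C (γ + r • x) y z = tri C γ y z + r * tri C x y z + r ^ 2 * 0
      + r ^ 3 * 0 := by
    intro r
    simp only [tri, map_add, map_smul, LinearMap.add_apply, LinearMap.smul_apply, smul_eq_mul]
    ring
  simp_rw [h2, deriv_cubic]
  rfl

theorem eq_of_pairing {a b : HEven T} (h : ∀ z, int (cupProduct C a z) = int (cupProduct C b z)) :
    a = b := by
  obtain ⟨a1, a2, a3, a4⟩ := a
  obtain ⟨b1, b2, b3, b4⟩ := b
  have h1 : a1 = b1 := by simpa [cupProduct, int] using h (0, 0, 0, 1)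
  have h4 : a4 = b4 := by simpa [cupProduct, int] using h (1, 0, 0, 0)
  have h3 : a3 = b3 := by
    ext t
    simpa [cupProduct, int] using h (0, t, 0, 0)
  have h2 : a2 = b2 := by
    rw [← sub_eq_zero, ← Module.forall_dual_apply_eq_zero_iff ℂ]
    intro ξ
    have := h (0, 0, ξ, 0)
    simp only [cupProduct, int, zero_mul, mul_zero, map_zero, zero_add] at this
    rw [map_sub, this, sub_self]
  rw [h1, h2, h3, h4]

/-- The Gromov-Witten connection form at a point of `H²`, in the direction of a vector of `H²`, is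
the cup product. -/
theorem connectionForm_eq (hsymm : ∀ x y z, C x y z = C y x z)
    (hsymm' : ∀ x y z, C x y z = C x z y) {H₂ : Type} [AddCommGroup H₂] (N : GWNumbers C H₂)
    (ω : H₂ → ℝ) (hω : ω 0 = 0) {A : HEven T → HEven T → HEven T → HEven T}
    (hA : IsConnectionForm C (prepotential ω N.I) A) (γ : HEven T) (y : T) (a : HEven T) :
    A γ (deg2 y) a = cup C y a := by
  apply eq_of_pairing (C := C)
  intro z
  rw [hA, prepotential_eq N ω hω, thirdDeriv_classical hsymm hsymm']
  congr 2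
  obtain ⟨a1, a2, a3, a4⟩ := a
  simp [cupProduct, deg2, cup]

end Pool.Agent.H64.GW
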