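import Pool.Agent.H64.GW.Defs

/-!
# The Gromov-Witten variation of a six-dimensional manifold, and local equivalence

Let `V` be a closed oriented manifold of real dimension six, `T = H² (V, ℂ)` and
`C (x, y, z) = ∫ x y z` for `x, y, z` in `T`. By Poincaré duality `H⁴ (V, ℂ)` is the dual of `T`,
and the even cohomology, with its cup product and integration, is determined by `T` and `C`.
-/

open scoped Manifold Topology

namespace Pool.Agent.H64.GW

/-- The even cohomology `H⁰ ⊕ H² ⊕ H⁴ ⊕ H⁶`, with `H² = T` and `H⁴` the dual of `T`. -/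
abbrev HEven (T : Type) [AddCommGroup T] [Module ℂ T] : Type :=
  ℂ × T × Module.Dual ℂ T × ℂ

section Frobenius

variable {T : Type} [AddCommGroup T] [Module ℂ T]

/-- The cup product on the even cohomology. -/
def cupProduct (C : T →ₗ[ℂ] T →ₗ[ℂ] Module.Dual ℂ T) (a b : HEven T) : HEven T :=
  (a.1 * b.1, a.1 • b.2.1 + b.1 • a.2.1, a.1 • b.2.2.1 + b.1 • a.2.2.1 + C a.2.1 b.2.1,
    a.1 * b.2.2.2 + b.1 * a.2.2.2 + a.2.2.1 b.2.1 + b.2.2.1 a.2.1)

/-- Integration over `V` of even classes. -/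
def int (a : HEven T) : ℂ := a.2.2.2

/-- The inclusion of `H² = T` in the even cohomology. -/
def deg2 (x : T) : HEven T := (0, x, 0, 0)

/-- The part of degree at most `2 k` of the even cohomology. -/
def degFiltration (T : Type) [AddCommGroup T] [Module ℂ T] (k : ℤ) :
    Submodule ℂ (HEven T) where
  carrier := {a | (k < 0 → a.1 = 0) ∧ (k < 1 → a.2.1 = 0) ∧ (k < 2 → a.2.2.1 = 0) ∧
    (k < 3 → a.2.2.2 = 0)}
  add_mem' := by
    rintro a b ⟨h1, h2, h3, h4⟩ ⟨k1, k2, k3, k4⟩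
    exact ⟨fun h => by simp [h1 h, k1 h], fun h => by simp [h2 h, k2 h],
      fun h => by simp [h3 h, k3 h], fun h => by simp [h4 h, k4 h]⟩
  zero_mem' := ⟨fun _ => rfl, fun _ => rfl, fun _ => rfl, fun _ => rfl⟩
  smul_mem' := by
    rintro c a ⟨h1, h2, h3, h4⟩
    exact ⟨fun h => by simp [h1 h], fun h => by simp [h2 h],
      fun h => by simp [h3 h], fun h => by simp [h4 h]⟩

/-- The third partial derivative `∂ₓ ∂_y ∂_z Φ` at the point `γ`. -/
noncomputable def thirdDeriv (Φ : HEven T → ℂ) (γ x y z : HEven T) : ℂ :=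
  deriv (fun r : ℂ => deriv (fun s : ℂ => deriv (fun t : ℂ =>
    Φ (γ + r • x + s • y + t • z)) 0) 0) 0

/-- `A` is the connection form `A ^ k _ {i j} = ∑ g ^ {k k'} ∂ᵢ ∂ⱼ ∂ₖ' Φ` of the potential `Φ`,
where `g` is the Poincaré pairing: `A γ x y` is the value at the point `γ`, in the direction `x`,
on the vector `y`. -/
def IsConnectionForm (C : T →ₗ[ℂ] T →ₗ[ℂ] Module.Dual ℂ T) (Φ : HEven T → ℂ)
    (A : HEven T → HEven T → HEven T → HEven T) : Prop :=
  ∀ γ x y z, int (cupProduct C (A γ x y) z) = thirdDeriv Φ γ x y z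

/-- The genus zero Gromov-Witten numbers `I n β γ = ⟨I_{0,n;β}, 1 ⊗ γ ^ ⊗ n⟩` (`n ≥ 3`, `γ` an
even class) of a closed symplectic manifold `V` of real dimension six with `c₁ (V) = 0` and
`π₂ (V) = 0`; here `H₂ = H₂ (V, ℤ)`. The classes `β ≠ 0` are not represented by spheres and do not
contribute; for `β = 0` all the maps are constant. -/
structure GWNumbers (C : T →ₗ[ℂ] T →ₗ[ℂ] Module.Dual ℂ T) (H₂ : Type) [AddCommGroup H₂] where
  I : ℕ → H₂ → HEven T → ℂ
  nonzero : ∀ n, 3 ≤ n → ∀ β, β ≠ 0 → ∀ γ, I n β γ = 0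
  zero_three : ∀ γ, I 3 0 γ = int (cupProduct C (cupProduct C γ γ) γ)
  zero_of_three_lt : ∀ n, 3 < n → ∀ γ, I n 0 γ = 0

/-- The prepotential `Φ (γ) = ∑_β ∑_{n ≥ 3} exp (- ⟨ω, β⟩) / n! ⟨I_{0,n;β}, 1 ⊗ γ ^ ⊗ n⟩`. -/
noncomputable def prepotential {H₂ : Type} (ω : H₂ → ℝ) (I : ℕ → H₂ → HEven T → ℂ)
    (γ : HEven T) : ℂ :=
  ∑' β : H₂, ∑' n : ℕ, if 3 ≤ n then (Real.exp (-ω β) : ℂ) / n.factorial * I n β γ else 0

end Frobenius

/-- The Gromov-Witten variation over `H² (V, ℂ) = T` (the trivial bundle whose fibre is the even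
cohomology, with the connection `∇ = d + A` and the filtration by degree), near the point `x₀`, is
equivalent to the flat bundle with fibre `E` and filtration `F` over the complex manifold `S`, near
the point `s₀`: there are a biholomorphic map `j` of a neighbourhood `O` of `x₀` onto an open set
of `S` with `j x₀ = s₀`, and an isomorphism `Ψ` of vector bundles over `j` which is compatible with
the connections and which identifies the steps of the two filtrations. -/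
def LocallyEq {T : Type} [NormedAddCommGroup T] [NormedSpace ℂ T]
    (A : HEven T → HEven T → HEven T → HEven T) (x₀ : T)
    {𝕄 : Type} [NormedAddCommGroup 𝕄] [NormedSpace ℂ 𝕄]
    {S : Type} [TopologicalSpace S] [ChartedSpace 𝕄 S]
    {E : Type} [NormedAddCommGroup E] [NormedSpace ℂ E]
    (F : ℤ → S → Submodule ℂ E) (s₀ : S) : Prop :=
  ∃ (O : Set T) (j : T → S) (j' : S → T) (Ψ : T → (HEven T ≃ₗ[ℂ] E)),
    IsOpen O ∧ x₀ ∈ O ∧ j x₀ = s₀ ∧ IsOpen (j '' O) ∧
    (∀ x ∈ O, MDifferentiableAt 𝓘(ℂ, T) 𝓘(ℂ, 𝕄) j x) ∧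
    (∀ x ∈ O, j' (j x) = x ∧ MDifferentiableAt 𝓘(ℂ, 𝕄) 𝓘(ℂ, T) j' (j x)) ∧
    (∀ x ∈ O, ∀ a, DifferentiableAt ℂ (fun x => Ψ x a) x ∧
      ∀ y, fderiv ℂ (fun x => Ψ x a) x y = Ψ x (A (deg2 x) (deg2 y) a)) ∧
    (∀ k : ℤ, ∃ p : ℤ, ∀ x ∈ O, F p (j x) = (degFiltration T k).map (Ψ x : HEven T →ₗ[ℂ] E)) ∧
    (∀ p : ℤ, ∃ k : ℤ, ∀ x ∈ O, F p (j x) = (degFiltration T k).map (Ψ x : HEven T →ₗ[ℂ] E))

/-- A subquotient with fibre `E'` of the variation `X`: a flat subbundle (given by the subspace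
`B` of `E`, stable under `Γ`) and a quotient of it by a flat subbundle (given by the kernel of the
surjective map `p`, stable under `Γ`). -/
structure Subquotient {𝕄 : Type} [NormedAddCommGroup 𝕄] [NormedSpace ℂ 𝕄]
    {S : Type} [TopologicalSpace S] [ChartedSpace 𝕄 S] {Γ : Type} [Group Γ] [MulAction Γ S]
    {E : Type} [NormedAddCommGroup E] [NormedSpace ℂ E]
    (X : PolarizedVariation 𝕄 S Γ E) (E' : Type) [AddCommGroup E'] [Module ℂ E'] where
  B : Submodule ℂ E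
  stable : ∀ γ : Γ, ∀ e ∈ B, X.ρ γ e ∈ B
  p : B →ₗ[ℂ] E'
  surjective : Function.Surjective p
  ker_stable : ∀ (γ : Γ) (e : B), p e = 0 → p ⟨X.ρ γ e, stable γ e e.2⟩ = 0

/-- The filtration of a subquotient induced by the Hodge filtration. -/
def Subquotient.F {𝕄 : Type} [NormedAddCommGroup 𝕄] [NormedSpace ℂ 𝕄]
    {S : Type} [TopologicalSpace S] [ChartedSpace 𝕄 S] {Γ : Type} [Group Γ] [MulAction Γ S]
    {E : Type} [NormedAddCommGroup E] [NormedSpace ℂ E]
    {X : PolarizedVariation 𝕄 S Γ E} {E' : Type} [AddCommGroup E'] [Module ℂ E']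
    (Y : Subquotient X E') (k : ℤ) (s : S) : Submodule ℂ E' :=
  ((X.F k s).comap Y.B.subtype).map Y.p

end Pool.Agent.H64.GW
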